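import Mathlib

/-!
Subtask SK-H (owner helper222).  From level sets to nonnegative polynomials.
-/

open MeasureTheory Set Metric
open scoped ENNReal NNReal Topology

namespace Pool.Agent.H222.SK.HH

/-- the largest length in which `{Q > 0}` meets a unit segment of direction `e` with the midpoint in
the cube -/
noncomputable def lmax {n : ℕ} (Q : MvPolynomial (Fin n) ℝ) (e : EuclideanSpace ℝ (Fin n)) : ℝ≥0∞ :=
  ⨆ a ∈ {b : EuclideanSpace ℝ (Fin n) | ∀ i, |b i| ≤ 1 / 2},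
    volume {s : ℝ | s ∈ Icc (-(1 / 2) : ℝ) (1 / 2) ∧
      0 < MvPolynomial.eval (fun i => (a + s • e) i) Q}

/-- the segment maximal function -/
noncomputable def smax {n : ℕ} (P : MvPolynomial (Fin n) ℝ) (e : EuclideanSpace ℝ (Fin n)) : ℝ≥0∞ :=
  ⨆ a ∈ {b : EuclideanSpace ℝ (Fin n) | ∀ i, |b i| ≤ 1 / 2},
    ∫⁻ s in Icc (-(1 / 2) : ℝ) (1 / 2), ‖MvPolynomial.eval (fun i => (a + s • e) i) P‖ₑ

/-- sections of an open set: the measure is lower semicontinuous -/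
theorem lsc_aux {X : Type} [TopologicalSpace X] (U : Set (X × ℝ)) (hU : IsOpen U) :
    LowerSemicontinuous fun e : X =>
      volume {s : ℝ | s ∈ Icc (-(1 / 2) : ℝ) (1 / 2) ∧ (e, s) ∈ U} := by
  intro e c hc
  have hmeas : MeasurableSet {s : ℝ | s ∈ Icc (-(1 / 2) : ℝ) (1 / 2) ∧ (e, s) ∈ U} := by
    refine measurableSet_Icc.inter ?_
    have h4 : Continuous fun s : ℝ => ((e, s) : X × ℝ) := by fun_prop
    exact (hU.preimage h4).measurableSet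
  obtain ⟨K, hK, hKc, hcK⟩ := hmeas.exists_lt_isCompact hc
  obtain ⟨u, v, hu, hv, heu, hKv, huv⟩ := generalized_tube_lemma
    (isCompact_singleton (x := e)) hKc hU (by
      rintro ⟨e', s⟩ ⟨he', hs⟩
      have he'' : e' = e := he'
      subst he''
      exact (hK hs).2)
  have hmem : u ∈ 𝓝 e := hu.mem_nhds (heu (mem_singleton e))
  filter_upwards [hmem] with e' he'
  exact hcK.trans_le (measure_mono fun s hs => ⟨(hK hs).1, huv (mk_mem_prod he' (hKv hs))⟩)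

/-- `lmax Q` is measurable: it is a supremum of functions of `e` which are lower semicontinuous
(`{(e, s) | Q (a + s e) > 0}` is open; Fatou's lemma along sequences, or: the set
`{e | c < volume {s ∈ Icc | 0 < Q (a + s e)}}` is open because the sets
`{s | dist(...)...}`; `lowerSemicontinuous_iff_le_liminf` and `lintegral_liminf_le` for the indicator
functions), and `lowerSemicontinuous_biSup`. -/
theorem lmax_meas {n : ℕ} (Q : MvPolynomial (Fin n) ℝ) : Measurable (lmax Q) := by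
  have hlsc : LowerSemicontinuous (lmax Q) := by
    unfold lmax
    refine lowerSemicontinuous_biSup fun a _ => ?_
    have hcont : Continuous fun p : EuclideanSpace ℝ (Fin n) × ℝ =>
        MvPolynomial.eval (fun i => (a + p.2 • p.1) i) Q := by
      have h1 : Continuous fun p : EuclideanSpace ℝ (Fin n) × ℝ =>
          (fun i => (a + p.2 • p.1) i : Fin n → ℝ) := by
        refine continuous_pi fun i => ?_
        have h2 : Continuous fun p : EuclideanSpace ℝ (Fin n) × ℝ => a + p.2 • p.1 := by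
          fun_prop
        exact (EuclideanSpace.proj (𝕜 := ℝ) i).continuous.comp h2
      exact (MvPolynomial.continuous_eval Q).comp h1
    have hU : IsOpen {p : EuclideanSpace ℝ (Fin n) × ℝ |
        0 < MvPolynomial.eval (fun i => (a + p.2 • p.1) i) Q} :=
      isOpen_lt continuous_const hcont
    exact lsc_aux _ hU
  exact hlsc.measurable


namespace H2x

/-- the big cube -/
abbrev Q2 (n : ℕ) : Set (EuclideanSpace ℝ (Fin n)) := {y | ∀ i, |y i| ≤ 2}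

/-- evaluation -/
noncomputable abbrev ev {n : ℕ} (P : MvPolynomial (Fin n) ℝ) (x : EuclideanSpace ℝ (Fin n)) : ℝ :=
  MvPolynomial.eval (fun i => x i) P

theorem ev_cont {n : ℕ} (P : MvPolynomial (Fin n) ℝ) : Continuous (ev P) :=
  (MvPolynomial.continuous_eval P).comp (by fun_prop)

theorem Q2_fin (n : ℕ) : volume (Q2 n) < ⊤ := by
  apply Bornology.IsBounded.measure_lt_top
  refine (Metric.isBounded_closedBall (x := (0 : EuclideanSpace ℝ (Fin n)))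
    (r := √(∑ _i : Fin n, (2 : ℝ) ^ 2))).subset ?_
  intro y hy
  rw [mem_closedBall_zero_iff, EuclideanSpace.norm_eq]
  apply Real.sqrt_le_sqrt
  apply Finset.sum_le_sum
  intro i _
  rw [Real.norm_eq_abs]
  exact pow_le_pow_left₀ (abs_nonneg _) (hy i) 2

theorem hold {n : ℕ} {p : ℝ} (hp : 1 ≤ p) (P : MvPolynomial (Fin n) ℝ) :
    (∫⁻ y in Q2 n, ‖ev P y‖ₑ) ^ p ≤
      (∫⁻ y in Q2 n, ‖ev P y‖ₑ ^ p) * volume (Q2 n) ^ (p - 1) := by
  have hp0 : 0 < p := by linarith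
  have h := eLpNorm'_le_eLpNorm'_mul_rpow_measure_univ (f := ev P)
    (μ := volume.restrict (Q2 n)) one_pos hp (ev_cont P).aestronglyMeasurable
  unfold eLpNorm' at h
  rw [Measure.restrict_apply_univ] at h
  have h2 := ENNReal.rpow_le_rpow h hp0.le
  rw [ENNReal.mul_rpow_of_nonneg _ _ hp0.le, ← ENNReal.rpow_mul, ← ENNReal.rpow_mul,
    ← ENNReal.rpow_mul, one_div_mul_cancel hp0.ne', ENNReal.rpow_one] at h2
  have e1 : (1 / 1 - 1 / p) * p = p - 1 := by field_simp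
  have e2 : (1 / 1 : ℝ) * p = p := by ring
  rw [e1, e2] at h2
  simp only [ENNReal.rpow_one] at h2
  exact h2

theorem dyad {m t : ℝ} (htm : t ≤ m) (J : ℕ) :
    ENNReal.ofReal t ≤ ENNReal.ofReal (m / 2 ^ J) +
      ∑ j ∈ Finset.range J, ENNReal.ofReal (m / 2 ^ j) * (if m / 2 ^ (j + 1) < t then 1 else 0) := by
  induction J with
  | zero =>
    rw [Finset.range_zero, Finset.sum_empty, pow_zero, div_one, add_zero]
    exact ENNReal.ofReal_le_ofReal htm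
  | succ J ih =>
    rw [Finset.sum_range_succ]
    by_cases h : m / 2 ^ (J + 1) < t
    · rw [if_pos h, mul_one]
      refine ih.trans ?_
      rw [add_comm]
      exact le_add_self
    · exact (ENNReal.ofReal_le_ofReal (not_lt.1 h)).trans le_self_add

theorem coord {n : ℕ} {a e : EuclideanSpace ℝ (Fin n)} {s : ℝ} (ha : ∀ i, |a i| ≤ 1 / 2)
    (he : ‖e‖ = 1) (hs : s ∈ Icc (-(1 / 2) : ℝ) (1 / 2)) (i : Fin n) : |(a + s • e) i| ≤ 1 := by
  have h1 : (a + s • e) i = a i + s * e i := rfl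
  have h2 : |e i| ≤ 1 := by
    rw [← he, ← Real.norm_eq_abs]
    exact PiLp.norm_apply_le e i
  have h3 : |s| ≤ 1 / 2 := abs_le.2 hs
  rw [h1]
  calc |a i + s * e i| ≤ |a i| + |s * e i| := abs_add_le _ _
    _ = |a i| + |s| * |e i| := by rw [abs_mul]
    _ ≤ 1 / 2 + 1 / 2 * 1 := add_le_add (ha i) (mul_le_mul h3 h2 (abs_nonneg _) (by norm_num))
    _ = 1 := by norm_num

theorem seg {n : ℕ} (P : MvPolynomial (Fin n) ℝ) (m : ℝ) (hpos : ∀ x, 0 ≤ ev P x)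
    (hm : ∀ x : EuclideanSpace ℝ (Fin n), (∀ i, |x i| ≤ 1) → ev P x ≤ m)
    (e : EuclideanSpace ℝ (Fin n)) (he : ‖e‖ = 1) (J : ℕ) (a : EuclideanSpace ℝ (Fin n))
    (ha : ∀ i, |a i| ≤ 1 / 2) :
    ∫⁻ s in Icc (-(1 / 2) : ℝ) (1 / 2), ‖MvPolynomial.eval (fun i => (a + s • e) i) P‖ₑ ≤
      ENNReal.ofReal (m / 2 ^ J) + ∑ j ∈ Finset.range J, ENNReal.ofReal (m / 2 ^ j) *
        lmax (P - MvPolynomial.C (m / 2 ^ (j + 1))) e := by
  obtain ⟨φ, hφd⟩ : ∃ φ : ℝ → ℝ, φ = fun s => MvPolynomial.eval (fun i => (a + s • e) i) P :=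
    ⟨_, rfl⟩
  have hφ : Continuous φ := by
    rw [hφd]
    exact (MvPolynomial.continuous_eval P).comp (by fun_prop)
  have hms : ∀ c : ℝ, MeasurableSet {s : ℝ | c < φ s} := fun c =>
    (isOpen_lt continuous_const hφ).measurableSet
  have h1 : ∫⁻ s in Icc (-(1 / 2) : ℝ) (1 / 2), ‖MvPolynomial.eval (fun i => (a + s • e) i) P‖ₑ ≤
      ∫⁻ s in Icc (-(1 / 2) : ℝ) (1 / 2), (ENNReal.ofReal (m / 2 ^ J) +
        ∑ j ∈ Finset.range J, ENNReal.ofReal (m / 2 ^ j) *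
          ({s : ℝ | m / 2 ^ (j + 1) < φ s}.indicator 1 s)) := by
    refine setLIntegral_mono' measurableSet_Icc fun s hs => ?_
    have h2 : φ s ≤ m := by
      rw [hφd]
      exact hm (a + s • e) (coord ha he hs)
    have h3 : 0 ≤ φ s := by
      rw [hφd]
      exact hpos (a + s • e)
    have h4 := dyad h2 J
    have h5 : ‖MvPolynomial.eval (fun i => (a + s • e) i) P‖ₑ = ENNReal.ofReal (φ s) := by
      have h6 : MvPolynomial.eval (fun i => (a + s • e) i) P = φ s := by rw [hφd]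
      rw [h6, Real.enorm_of_nonneg h3]
    rw [h5]
    exact h4
  refine h1.trans ?_
  rw [lintegral_add_left measurable_const, lintegral_const, Measure.restrict_apply_univ,
    Real.volume_Icc]
  have e1 : ENNReal.ofReal (1 / 2 - -(1 / 2)) = 1 := by
    rw [show (1 / 2 - -(1 / 2) : ℝ) = 1 by norm_num, ENNReal.ofReal_one]
  rw [e1, mul_one, lintegral_finsetSum _ (fun j _ =>
    ((measurable_one.indicator (hms _)).const_mul _))]
  refine add_le_add le_rfl (Finset.sum_le_sum fun j _ => ?_)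
  rw [lintegral_const_mul _ (measurable_one.indicator (hms _)), lintegral_indicator_one (hms _),
    Measure.restrict_apply (hms _)]
  refine mul_le_mul' le_rfl ?_
  have e2 : {s : ℝ | m / 2 ^ (j + 1) < φ s} ∩ Icc (-(1 / 2) : ℝ) (1 / 2) =
      {s : ℝ | s ∈ Icc (-(1 / 2) : ℝ) (1 / 2) ∧
        0 < MvPolynomial.eval (fun i => (a + s • e) i) (P - MvPolynomial.C (m / 2 ^ (j + 1)))} := by
    ext s
    rw [hφd]
    simp only [mem_inter_iff, mem_ofPred_eq, map_sub, MvPolynomial.eval_C, sub_pos]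
    exact and_comm
  rw [e2]
  exact le_iSup₂_of_le (f := fun a (_ : a ∈ {b : EuclideanSpace ℝ (Fin n) | ∀ i, |b i| ≤ 1 / 2}) =>
    volume {s : ℝ | s ∈ Icc (-(1 / 2) : ℝ) (1 / 2) ∧
      0 < MvPolynomial.eval (fun i => (a + s • e) i) (P - MvPolynomial.C (m / 2 ^ (j + 1)))})
    a ha le_rfl

theorem sm {n : ℕ} {p : ℝ} (hp : 1 ≤ p) (P : MvPolynomial (Fin n) ℝ) (m : ℝ)
    (hpos : ∀ x, 0 ≤ ev P x)
    (hm : ∀ x : EuclideanSpace ℝ (Fin n), (∀ i, |x i| ≤ 1) → ev P x ≤ m)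
    (e : EuclideanSpace ℝ (Fin n)) (he : ‖e‖ = 1) (J : ℕ) :
    smax P e ^ p ≤ 2 ^ (p - 1) * (ENNReal.ofReal (m / 2 ^ J) ^ p +
      (J : ℝ≥0∞) ^ (p - 1) * ∑ j ∈ Finset.range J, ENNReal.ofReal (m / 2 ^ j) ^ p *
        lmax (P - MvPolynomial.C (m / 2 ^ (j + 1))) e ^ p) := by
  have hp0 : 0 ≤ p := by linarith
  have h1 : smax P e ≤ ENNReal.ofReal (m / 2 ^ J) + ∑ j ∈ Finset.range J,
      ENNReal.ofReal (m / 2 ^ j) * lmax (P - MvPolynomial.C (m / 2 ^ (j + 1))) e :=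
    iSup₂_le fun a ha => seg P m hpos hm e he J a ha
  refine (ENNReal.rpow_le_rpow h1 hp0).trans ?_
  refine (ENNReal.rpow_add_le_mul_rpow_add_rpow _ _ hp).trans ?_
  refine mul_le_mul' le_rfl (add_le_add le_rfl ?_)
  refine (ENNReal.rpow_sum_le_const_mul_sum_rpow _ _ hp).trans ?_
  rw [Finset.card_range]
  refine mul_le_mul' le_rfl (Finset.sum_le_sum fun j _ => ?_)
  rw [ENNReal.mul_rpow_of_nonneg _ _ hp0]

theorem cheb {n : ℕ} {p : ℝ} (hp : 1 ≤ p) (P : MvPolynomial (Fin n) ℝ) (c : ℝ) :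
    ENNReal.ofReal c ^ p * volume {x : EuclideanSpace ℝ (Fin n) | (∀ i, |x i| ≤ 2) ∧
      0 < MvPolynomial.eval (fun i => x i) (P - MvPolynomial.C c)} ≤
      ∫⁻ y in Q2 n, ‖ev P y‖ₑ ^ p := by
  have hp0 : 0 ≤ p := by linarith
  have hm : Measurable (fun y : EuclideanSpace ℝ (Fin n) => ‖ev P y‖ₑ ^ p) :=
    ((ev_cont P).measurable.enorm).pow_const p
  refine le_trans (mul_le_mul' le_rfl ?_)
    (mul_meas_ge_le_lintegral (μ := volume.restrict (Q2 n)) hm (ENNReal.ofReal c ^ p))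
  refine le_trans (measure_mono ?_) (Measure.le_restrict_apply (Q2 n) _)
  rintro x ⟨h1, h2⟩
  rw [map_sub, MvPolynomial.eval_C, sub_pos] at h2
  refine ⟨?_, h1⟩
  refine ENNReal.rpow_le_rpow ?_ hp0
  have h3 : ENNReal.ofReal c ≤ ENNReal.ofReal |ev P x| :=
    ENNReal.ofReal_le_ofReal (h2.le.trans (le_abs_self _))
  rw [← Real.norm_eq_abs, ofReal_norm] at h3
  exact h3

/-- the number of dyadic levels -/
theorem levels (n D : ℕ) (hD : 1 ≤ D) : ∃ J : ℕ, (D : ℝ) ^ n ≤ 2 ^ J ∧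
    (1 + J : ℝ) ≤ (2 * n + 1) * (1 + Real.log D) := by
  refine ⟨n * (Nat.log 2 D + 1), ?_, ?_⟩
  · have h1 : D < 2 ^ (Nat.log 2 D).succ := Nat.lt_pow_succ_log_self (by norm_num) D
    have h2 : (D : ℝ) ≤ 2 ^ (Nat.log 2 D + 1) := by exact_mod_cast h1.le
    calc (D : ℝ) ^ n ≤ (2 ^ (Nat.log 2 D + 1)) ^ n := pow_le_pow_left₀ (Nat.cast_nonneg D) h2 n
      _ = 2 ^ (n * (Nat.log 2 D + 1)) := by rw [← pow_mul, mul_comm]
  · have hD0 : (0 : ℝ) < (D : ℝ) := by exact_mod_cast hD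
    have h1 : 2 ^ Nat.log 2 D ≤ D := Nat.pow_log_le_self 2 (by omega)
    have h2 : (2 : ℝ) ^ Nat.log 2 D ≤ D := by exact_mod_cast h1
    have h3 : Real.log ((2 : ℝ) ^ Nat.log 2 D) ≤ Real.log D :=
      Real.log_le_log (by positivity) h2
    rw [Real.log_pow] at h3
    have h4 := Real.log_two_gt_d9
    have h5 : (0 : ℝ) ≤ (Nat.log 2 D : ℝ) := Nat.cast_nonneg _
    have h6 : (Nat.log 2 D : ℝ) ≤ 2 * Real.log D := by nlinarith
    have h7 : (0 : ℝ) ≤ (n : ℝ) := Nat.cast_nonneg n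
    have h8 : 0 ≤ Real.log D := Real.log_nonneg (by exact_mod_cast hD)
    have h9 : (n : ℝ) * Nat.log 2 D ≤ n * (2 * Real.log D) := mul_le_mul_of_nonneg_left h6 h7
    push_cast
    nlinarith

/-- the scaled supremum -/
theorem claimA {n : ℕ} {p : ℝ} (hp : 1 ≤ p) (D : ℕ) (hD : 1 ≤ D) (S I V : ℝ≥0∞)
    (hS : S ^ p ≤ I * V ^ (p - 1)) :
    (ENNReal.ofReal ((2 * (D + 1)) ^ n) * S) ^ p * ENNReal.ofReal ((D : ℝ) ^ (-(n * p))) ≤
      ENNReal.ofReal ((4 : ℝ) ^ (n * p)) * V ^ (p - 1) * I := by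
  have hp0 : 0 ≤ p := by linarith
  have hDr : (1 : ℝ) ≤ (D : ℝ) := by exact_mod_cast hD
  have hD0 : (0 : ℝ) < (D : ℝ) := by linarith
  rw [ENNReal.mul_rpow_of_nonneg _ _ hp0]
  have h1 : ENNReal.ofReal ((2 * ((D : ℝ) + 1)) ^ n) ^ p * ENNReal.ofReal ((D : ℝ) ^ (-(n * p))) ≤
      ENNReal.ofReal ((4 : ℝ) ^ (n * p)) := by
    rw [ENNReal.ofReal_rpow_of_nonneg (by positivity) hp0, ← ENNReal.ofReal_mul (by positivity)]
    apply ENNReal.ofReal_le_ofReal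
    have h2 : ((2 * ((D : ℝ) + 1)) ^ n) ^ p ≤ ((4 * (D : ℝ)) ^ n) ^ p := by
      apply Real.rpow_le_rpow (by positivity) _ hp0
      exact pow_le_pow_left₀ (by positivity) (by linarith) n
    have h3 : ((4 * (D : ℝ)) ^ n) ^ p = (4 : ℝ) ^ (n * p) * (D : ℝ) ^ (n * p) := by
      rw [← Real.rpow_natCast, ← Real.rpow_mul (by positivity), Real.mul_rpow (by norm_num) hD0.le]
    have h4 : (D : ℝ) ^ (n * p) * (D : ℝ) ^ (-(n * p)) = 1 := by
      rw [← Real.rpow_add hD0, add_neg_cancel, Real.rpow_zero]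
    calc ((2 * ((D : ℝ) + 1)) ^ n) ^ p * (D : ℝ) ^ (-(n * p))
        ≤ ((4 * (D : ℝ)) ^ n) ^ p * (D : ℝ) ^ (-(n * p)) :=
          mul_le_mul_of_nonneg_right h2 (Real.rpow_nonneg hD0.le _)
      _ = (4 : ℝ) ^ (n * p) * ((D : ℝ) ^ (n * p) * (D : ℝ) ^ (-(n * p))) := by rw [h3, mul_assoc]
      _ = (4 : ℝ) ^ (n * p) := by rw [h4, mul_one]
  calc ENNReal.ofReal ((2 * ((D : ℝ) + 1)) ^ n) ^ p * S ^ p * ENNReal.ofReal ((D : ℝ) ^ (-(n * p)))
      = (ENNReal.ofReal ((2 * ((D : ℝ) + 1)) ^ n) ^ p * ENNReal.ofReal ((D : ℝ) ^ (-(n * p)))) *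
          S ^ p := by ring
    _ ≤ ENNReal.ofReal ((4 : ℝ) ^ (n * p)) * (I * V ^ (p - 1)) := mul_le_mul' h1 hS
    _ = ENNReal.ofReal ((4 : ℝ) ^ (n * p)) * V ^ (p - 1) * I := by ring

theorem claimB {n : ℕ} {p m : ℝ} (hp : 1 ≤ p) (hm : 0 ≤ m) (D J : ℕ) (hD : 1 ≤ D)
    (hJ : (D : ℝ) ^ n ≤ 2 ^ J) :
    ENNReal.ofReal (m / 2 ^ J) ^ p ≤
      ENNReal.ofReal m ^ p * ENNReal.ofReal ((D : ℝ) ^ (-(n * p))) := by
  have hp0 : 0 ≤ p := by linarith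
  have hDr : (1 : ℝ) ≤ (D : ℝ) := by exact_mod_cast hD
  have hD0 : (0 : ℝ) < (D : ℝ) := by linarith
  rw [ENNReal.ofReal_rpow_of_nonneg (by positivity) hp0, ENNReal.ofReal_rpow_of_nonneg hm hp0,
    ← ENNReal.ofReal_mul (by positivity)]
  apply ENNReal.ofReal_le_ofReal
  have h1 : (D : ℝ) ^ (-(n * p)) = ((D : ℝ) ^ n)⁻¹ ^ p := by
    rw [Real.inv_rpow (by positivity), ← Real.rpow_natCast, ← Real.rpow_mul hD0.le,
      Real.rpow_neg hD0.le]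
  rw [h1, ← Real.mul_rpow hm (by positivity)]
  apply Real.rpow_le_rpow (by positivity) _ hp0
  rw [div_eq_mul_inv]
  exact mul_le_mul_of_nonneg_left (inv_anti₀ (by positivity) hJ) hm

theorem claimL {n : ℕ} {p : ℝ} (hp : 1 ≤ p) (D J : ℕ) (hD : 1 ≤ D)
    (hJ : (1 + J : ℝ) ≤ (2 * n + 1) * (1 + Real.log D)) :
    (1 + (J : ℝ≥0∞)) ^ p ≤
      ENNReal.ofReal ((2 * n + 1 : ℝ) ^ p) * ENNReal.ofReal ((1 + Real.log D) ^ (p + 1)) := by
  have hp0 : 0 ≤ p := by linarith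
  have hlog : 0 ≤ Real.log D := Real.log_nonneg (by exact_mod_cast hD)
  have e1 : (1 + (J : ℝ≥0∞)) = ENNReal.ofReal (1 + J) := by
    rw [ENNReal.ofReal_add (by norm_num) (Nat.cast_nonneg J), ENNReal.ofReal_one,
      ENNReal.ofReal_natCast]
  rw [e1, ENNReal.ofReal_rpow_of_nonneg (by positivity) hp0, ← ENNReal.ofReal_mul (by positivity)]
  apply ENNReal.ofReal_le_ofReal
  calc (1 + (J : ℝ)) ^ p ≤ ((2 * n + 1) * (1 + Real.log D)) ^ p :=
        Real.rpow_le_rpow (by positivity) hJ hp0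
    _ = (2 * n + 1 : ℝ) ^ p * (1 + Real.log D) ^ p := Real.mul_rpow (by positivity) (by positivity)
    _ ≤ (2 * n + 1 : ℝ) ^ p * (1 + Real.log D) ^ (p + 1) :=
        mul_le_mul_of_nonneg_left
          (Real.rpow_le_rpow_of_exponent_le (by linarith) (by linarith)) (by positivity)

theorem claimJ {p : ℝ} (hp : 1 ≤ p) (J : ℕ) :
    (J : ℝ≥0∞) ^ (p - 1) * J ≤ (1 + (J : ℝ≥0∞)) ^ p := by
  have h1 : (J : ℝ≥0∞) ≤ 1 + J := le_add_self
  calc (J : ℝ≥0∞) ^ (p - 1) * J ≤ (1 + (J : ℝ≥0∞)) ^ (p - 1) * (1 + J) :=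
        mul_le_mul' (ENNReal.rpow_le_rpow h1 (by linarith)) h1
    _ = (1 + (J : ℝ≥0∞)) ^ (p - 1) * (1 + (J : ℝ≥0∞)) ^ (1 : ℝ) := by rw [ENNReal.rpow_one]
    _ = (1 + (J : ℝ≥0∞)) ^ p := by
        rw [← ENNReal.rpow_add_of_nonneg _ _ (by linarith) (by norm_num)]
        congr 1
        ring

theorem claimOne {p : ℝ} (hp : 1 ≤ p) (J : ℕ) : 1 ≤ (1 + (J : ℝ≥0∞)) ^ p := by
  have h1 : (1 : ℝ≥0∞) ≤ 1 + J := le_self_add
  calc (1 : ℝ≥0∞) = 1 ^ p := (ENNReal.one_rpow p).symm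
    _ ≤ _ := ENNReal.rpow_le_rpow h1 (by linarith)

theorem int_eq {X : Type*} [MeasurableSpace X] (μ : Measure X) (g : ℕ → X → ℝ≥0∞)
    (hg : ∀ j, Measurable (g j)) (a b c : ℝ≥0∞) (w : ℕ → ℝ≥0∞) (J : ℕ) :
    ∫⁻ e, a * (b + c * ∑ j ∈ Finset.range J, w j * g j e) ∂μ =
      a * (b * μ univ + c * ∑ j ∈ Finset.range J, w j * ∫⁻ e, g j e ∂μ) := by
  have hms : Measurable (fun e => ∑ j ∈ Finset.range J, w j * g j e) :=
    Finset.measurable_fun_sum _ fun j _ => (hg j).const_mul _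
  have h1 : Measurable (fun e => b + c * ∑ j ∈ Finset.range J, w j * g j e) :=
    measurable_const.add (hms.const_mul _)
  rw [lintegral_const_mul a h1, lintegral_add_left measurable_const, lintegral_const,
    lintegral_const_mul c hms, lintegral_finsetSum _ (fun j _ => (hg j).const_mul _)]
  have h2 : ∀ j ∈ Finset.range J, ∫⁻ e, w j * g j e ∂μ = w j * ∫⁻ e, g j e ∂μ :=
    fun j _ => lintegral_const_mul _ (hg j)
  rw [Finset.sum_congr rfl h2]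

/-- the bound after integration -/
theorem total {p : ℝ} (K A B I a c : ℝ≥0∞) (J : ℕ) (hp : 1 ≤ p) (ha : a ≤ K * I)
    (hc : c ≤ B * (2 ^ p * I + K * I)) :
    2 ^ (p - 1) * (a * A + (J : ℝ≥0∞) ^ (p - 1) * (J * c)) ≤
      2 ^ (p - 1) * (K * A + (2 ^ p + K)) * (1 + B) * (1 + (J : ℝ≥0∞)) ^ p * I := by
  have h1 : a * A ≤ K * A * (1 + B) * (1 + (J : ℝ≥0∞)) ^ p * I := by
    calc a * A ≤ K * I * A := mul_le_mul' ha le_rfl
      _ = K * A * 1 * 1 * I := by ring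
      _ ≤ K * A * (1 + B) * (1 + (J : ℝ≥0∞)) ^ p * I :=
          mul_le_mul' (mul_le_mul' (mul_le_mul' le_rfl le_self_add) (claimOne hp J)) le_rfl
  have h2 : (J : ℝ≥0∞) ^ (p - 1) * (J * c) ≤
      (2 ^ p + K) * (1 + B) * (1 + (J : ℝ≥0∞)) ^ p * I := by
    calc (J : ℝ≥0∞) ^ (p - 1) * (J * c) = ((J : ℝ≥0∞) ^ (p - 1) * J) * c := by ring
      _ ≤ (1 + (J : ℝ≥0∞)) ^ p * (B * (2 ^ p * I + K * I)) := mul_le_mul' (claimJ hp J) hc
      _ ≤ (1 + (J : ℝ≥0∞)) ^ p * ((1 + B) * (2 ^ p * I + K * I)) :=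
          mul_le_mul' le_rfl (mul_le_mul' le_add_self le_rfl)
      _ = (2 ^ p + K) * (1 + B) * (1 + (J : ℝ≥0∞)) ^ p * I := by ring
  calc 2 ^ (p - 1) * (a * A + (J : ℝ≥0∞) ^ (p - 1) * (J * c))
      ≤ 2 ^ (p - 1) * (K * A * (1 + B) * (1 + (J : ℝ≥0∞)) ^ p * I +
          (2 ^ p + K) * (1 + B) * (1 + (J : ℝ≥0∞)) ^ p * I) :=
        mul_le_mul' le_rfl (add_le_add h1 h2)
    _ = _ := by ring

end H2x

/-- Paper proof. Let `M = (2 (D + 1))^n ∫_{[-2,2]^n} P`, so that `0 ≤ P ≤ M` on `[-1,1]^n` (`nik`), and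
`M^p ≤ C₀ D^(n p) ∫_{[-2,2]^n} P^p` (Hoelder on the cube of volume `4^n`).  If `M = 0` then `smax P = 0`
and we are done; `M = ∞` does not occur (`P` is bounded on the cube).  Let `J ≥ 1` be an integer
with `2^J ≥ D^n`, `J ≤ C₁ (1 + log D)`.  On the cube `[-1,1]^n`
`P ≤ M 2^(-J) + ∑_{j<J} M 2^(-j) 1{P > M 2^(-j-1)}` (look at `j` with `M 2^(-j-1) < P ≤ M 2^(-j)`).
Since the segments are in `[-1,1]^n` for unit `e`,
`smax P e ≤ M 2^(-J) + ∑_{j<J} M 2^(-j) lmax (P - M 2^(-j-1)) e`.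
Raise to the power `p`: `(a_0 + ... + a_J)^p ≤ (J+1)^(p-1) ∑ a_j^p`
(`ENNReal.rpow_sum_le_const_mul_sum_rpow` or `inner_le_nnorm_mul_nnorm`; any constant power of `J + 1`
is fine for the statement below, which has `(1 + log D)^(p+1)`), integrate (`lmax_meas`), use the
hypothesis for `Q = P - C (M 2^(-j-1))`, `M^p 2^(-j p) volume{x in cube, P > M 2^(-j-1)} ≤ 2^p ∫_cube P^p`
(Chebyshev), and `M^p D^(-n p) ≤ C₀ ∫ P^p` for the remaining terms. -/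
theorem poly_of_sets {n : ℕ} {p : ℝ} (hp : 1 ≤ p)
    {μ : Measure (sphere (0 : EuclideanSpace ℝ (Fin n)) 1)} [IsFiniteMeasure μ]
    (nik : ∀ (M : ℕ) (P : MvPolynomial (Fin n) ℝ), P.totalDegree ≤ M →
      ∀ x : EuclideanSpace ℝ (Fin n), (∀ i, |x i| ≤ 1) →
      ‖MvPolynomial.eval (fun i => x i) P‖ₑ ≤ ENNReal.ofReal ((2 * (M + 1)) ^ n) *
        ∫⁻ y in {y : EuclideanSpace ℝ (Fin n) | ∀ i, |y i| ≤ 2},
          ‖MvPolynomial.eval (fun i => y i) P‖ₑ) :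
    ∃ C : ℝ≥0, ∀ D : ℕ, 1 ≤ D → ∀ B : ℝ≥0,
      (∀ Q : MvPolynomial (Fin n) ℝ, Q.totalDegree ≤ D →
        ∫⁻ e, lmax Q (e : EuclideanSpace ℝ (Fin n)) ^ p ∂μ ≤
          B * (volume {x : EuclideanSpace ℝ (Fin n) | (∀ i, |x i| ≤ 2) ∧
            0 < MvPolynomial.eval (fun i => x i) Q} + ENNReal.ofReal ((D : ℝ) ^ (-(n * p))))) →
      ∀ P : MvPolynomial (Fin n) ℝ, P.totalDegree ≤ D →
        (∀ x : EuclideanSpace ℝ (Fin n), 0 ≤ MvPolynomial.eval (fun i => x i) P) →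
        ∫⁻ e, smax P (e : EuclideanSpace ℝ (Fin n)) ^ p ∂μ ≤
          C * (1 + B) * ENNReal.ofReal ((1 + Real.log D) ^ (p + 1)) *
            ∫⁻ y in {y : EuclideanSpace ℝ (Fin n) | ∀ i, |y i| ≤ 2},
              ‖MvPolynomial.eval (fun i => y i) P‖ₑ ^ p := by
  have hp0 : 0 ≤ p := by linarith
  obtain ⟨V, hVd⟩ : ∃ V : ℝ≥0∞, V = volume (H2x.Q2 n) := ⟨_, rfl⟩
  have hV : V ≠ ⊤ := by
    rw [hVd]
    exact (H2x.Q2_fin n).ne
  obtain ⟨K, hKd⟩ : ∃ K : ℝ≥0∞, K = ENNReal.ofReal ((4 : ℝ) ^ (n * p)) * V ^ (p - 1) := ⟨_, rfl⟩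
  have hVp : V ^ (p - 1) ≠ ⊤ := (ENNReal.rpow_lt_top_of_nonneg (by linarith) hV).ne
  have hK : K ≠ ⊤ := by
    rw [hKd]
    exact ENNReal.mul_ne_top ENNReal.ofReal_ne_top hVp
  obtain ⟨c₁, hc₁⟩ : ∃ c₁ : ℝ≥0∞, c₁ = 2 ^ (p - 1) * (K * μ univ + (2 ^ p + K)) *
    ENNReal.ofReal ((2 * n + 1 : ℝ) ^ p) := ⟨_, rfl⟩
  have h2a : (2 : ℝ≥0∞) ^ (p - 1) ≠ ⊤ :=
    (ENNReal.rpow_lt_top_of_nonneg (by linarith) (by norm_num)).ne
  have h2b : (2 : ℝ≥0∞) ^ p ≠ ⊤ := (ENNReal.rpow_lt_top_of_nonneg hp0 (by norm_num)).ne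
  have hc₁t : c₁ ≠ ⊤ := by
    rw [hc₁]
    refine ENNReal.mul_ne_top (ENNReal.mul_ne_top h2a (ENNReal.add_ne_top.2
      ⟨ENNReal.mul_ne_top hK (measure_ne_top μ univ), ENNReal.add_ne_top.2 ⟨h2b, hK⟩⟩))
      ENNReal.ofReal_ne_top
  refine ⟨c₁.toNNReal + 1, ?_⟩
  intro D hD B hB P hP hpos
  have hC : ((c₁.toNNReal + 1 : ℝ≥0) : ℝ≥0∞) = c₁ + 1 := by
    rw [ENNReal.coe_add, ENNReal.coe_toNNReal hc₁t, ENNReal.coe_one]
  rw [hC]
  obtain ⟨I, hI⟩ : ∃ I : ℝ≥0∞, I = ∫⁻ y in {y : EuclideanSpace ℝ (Fin n) | ∀ i, |y i| ≤ 2},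
    ‖MvPolynomial.eval (fun i => y i) P‖ₑ ^ p := ⟨_, rfl⟩
  rw [← hI]
  have hlog : 0 ≤ Real.log D := Real.log_nonneg (by exact_mod_cast hD)
  by_cases hIt : I = ⊤
  · have h1 : (c₁ + 1) * (1 + (B : ℝ≥0∞)) * ENNReal.ofReal ((1 + Real.log D) ^ (p + 1)) ≠ 0 := by
      refine mul_ne_zero (mul_ne_zero ?_ ?_) ?_
      · exact (lt_of_lt_of_le zero_lt_one le_add_self).ne'
      · exact (lt_of_lt_of_le zero_lt_one le_self_add).ne'
      · exact (ENNReal.ofReal_pos.2 (by positivity)).ne'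
    rw [hIt, ENNReal.mul_top h1]
    exact le_top
  obtain ⟨S, hS⟩ : ∃ S : ℝ≥0∞, S = ∫⁻ y in {y : EuclideanSpace ℝ (Fin n) | ∀ i, |y i| ≤ 2},
    ‖MvPolynomial.eval (fun i => y i) P‖ₑ := ⟨_, rfl⟩
  have hSI : S ^ p ≤ I * V ^ (p - 1) := by
    rw [hS, hI, hVd]
    exact H2x.hold hp P
  have hSt : S ≠ ⊤ := by
    intro h
    rw [h, ENNReal.top_rpow_of_pos (by linarith)] at hSI
    exact (ENNReal.mul_ne_top hIt hVp) (top_le_iff.1 hSI)
  obtain ⟨M₀, hM₀⟩ : ∃ M₀ : ℝ≥0∞, M₀ = ENNReal.ofReal ((2 * ((D : ℝ) + 1)) ^ n) * S := ⟨_, rfl⟩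
  have hM₀t : M₀ ≠ ⊤ := by
    rw [hM₀]
    exact ENNReal.mul_ne_top ENNReal.ofReal_ne_top hSt
  obtain ⟨m, hm⟩ : ∃ m : ℝ, m = M₀.toReal := ⟨_, rfl⟩
  have hm0 : 0 ≤ m := by
    rw [hm]
    exact ENNReal.toReal_nonneg
  have hmM : ENNReal.ofReal m = M₀ := by
    rw [hm, ENNReal.ofReal_toReal hM₀t]
  have hbd : ∀ x : EuclideanSpace ℝ (Fin n), (∀ i, |x i| ≤ 1) → H2x.ev P x ≤ m := by
    intro x hx
    have h1 := nik D P hP x hx
    rw [← hS, ← hM₀, ← hmM, Real.enorm_of_nonneg (hpos x)] at h1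
    exact (ENNReal.ofReal_le_ofReal_iff hm0).1 h1
  have hA : ENNReal.ofReal m ^ p * ENNReal.ofReal ((D : ℝ) ^ (-(n * p))) ≤ K * I := by
    rw [hmM, hM₀, hKd]
    exact H2x.claimA hp D hD S I V hSI
  obtain ⟨J, hJ1, hJ2⟩ := H2x.levels n D hD
  have hB' : ENNReal.ofReal (m / 2 ^ J) ^ p ≤ K * I := (H2x.claimB hp hm0 D J hD hJ1).trans hA
  obtain ⟨c, hcd⟩ : ∃ c : ℝ≥0∞, c = (B : ℝ≥0∞) * (2 ^ p * I + K * I) := ⟨_, rfl⟩
  have hterm : ∀ j, ENNReal.ofReal (m / 2 ^ j) ^ p *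
      ∫⁻ e, lmax (P - MvPolynomial.C (m / 2 ^ (j + 1))) (e : EuclideanSpace ℝ (Fin n)) ^ p ∂μ ≤
      c := by
    intro j
    have h1 := hB (P - MvPolynomial.C (m / 2 ^ (j + 1)))
      ((MvPolynomial.totalDegree_sub_C_le P _).trans hP)
    refine (mul_le_mul' le_rfl h1).trans ?_
    have h2 := H2x.cheb hp P (m / 2 ^ (j + 1))
    have h3 : ENNReal.ofReal (m / 2 ^ j) ^ p = 2 ^ p * ENNReal.ofReal (m / 2 ^ (j + 1)) ^ p := by
      rw [← ENNReal.mul_rpow_of_nonneg _ _ hp0]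
      congr 1
      have e1 : m / 2 ^ j = 2 * (m / 2 ^ (j + 1)) := by
        rw [pow_succ]
        field_simp
      rw [e1, ENNReal.ofReal_mul (by norm_num), ENNReal.ofReal_ofNat]
    have h4 : ENNReal.ofReal (m / 2 ^ j) ^ p ≤ ENNReal.ofReal m ^ p := by
      refine ENNReal.rpow_le_rpow (ENNReal.ofReal_le_ofReal ?_) hp0
      exact div_le_self hm0 (one_le_pow₀ (by norm_num))
    have h5 : ENNReal.ofReal (m / 2 ^ j) ^ p *
        volume {x : EuclideanSpace ℝ (Fin n) | (∀ i, |x i| ≤ 2) ∧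
          0 < MvPolynomial.eval (fun i => x i) (P - MvPolynomial.C (m / 2 ^ (j + 1)))} ≤
        2 ^ p * I := by
      rw [h3, mul_assoc, hI]
      exact mul_le_mul' le_rfl h2
    have h6 : ENNReal.ofReal (m / 2 ^ j) ^ p * ENNReal.ofReal ((D : ℝ) ^ (-(n * p))) ≤ K * I :=
      (mul_le_mul' h4 le_rfl).trans hA
    rw [hcd, mul_left_comm, mul_add]
    exact mul_le_mul' le_rfl (add_le_add h5 h6)
  have hint : ∫⁻ e, smax P (e : EuclideanSpace ℝ (Fin n)) ^ p ∂μ ≤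
      2 ^ (p - 1) * (ENNReal.ofReal (m / 2 ^ J) ^ p * μ univ +
        (J : ℝ≥0∞) ^ (p - 1) * (J * c)) := by
    calc ∫⁻ e, smax P (e : EuclideanSpace ℝ (Fin n)) ^ p ∂μ
        ≤ ∫⁻ e, 2 ^ (p - 1) * (ENNReal.ofReal (m / 2 ^ J) ^ p +
          (J : ℝ≥0∞) ^ (p - 1) * ∑ j ∈ Finset.range J, ENNReal.ofReal (m / 2 ^ j) ^ p *
            lmax (P - MvPolynomial.C (m / 2 ^ (j + 1))) (e : EuclideanSpace ℝ (Fin n)) ^ p) ∂μ := by
          refine lintegral_mono fun e => ?_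
          exact H2x.sm hp P m hpos hbd e (mem_sphere_zero_iff_norm.1 e.2) J
      _ = 2 ^ (p - 1) * (ENNReal.ofReal (m / 2 ^ J) ^ p * μ univ +
          (J : ℝ≥0∞) ^ (p - 1) * ∑ j ∈ Finset.range J, ENNReal.ofReal (m / 2 ^ j) ^ p *
            ∫⁻ e, lmax (P - MvPolynomial.C (m / 2 ^ (j + 1)))
              (e : EuclideanSpace ℝ (Fin n)) ^ p ∂μ) := by
          exact H2x.int_eq μ (fun j (e : sphere (0 : EuclideanSpace ℝ (Fin n)) 1) =>
            lmax (P - MvPolynomial.C (m / 2 ^ (j + 1))) (e : EuclideanSpace ℝ (Fin n)) ^ p)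
            (fun j => ((lmax_meas _).comp measurable_subtype_coe).pow_const p) _ _ _
            (fun j => ENNReal.ofReal (m / 2 ^ j) ^ p) J
      _ ≤ 2 ^ (p - 1) * (ENNReal.ofReal (m / 2 ^ J) ^ p * μ univ +
          (J : ℝ≥0∞) ^ (p - 1) * (J * c)) := by
          refine mul_le_mul' le_rfl (add_le_add le_rfl (mul_le_mul' le_rfl ?_))
          refine (Finset.sum_le_sum fun j _ => hterm j).trans ?_
          rw [Finset.sum_const, Finset.card_range, nsmul_eq_mul]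
  refine hint.trans ((H2x.total K (μ univ) B I _ c J hp hB' hcd.le).trans ?_)
  have hL := H2x.claimL (n := n) hp D J hD hJ2
  calc 2 ^ (p - 1) * (K * μ univ + (2 ^ p + K)) * (1 + (B : ℝ≥0∞)) * (1 + (J : ℝ≥0∞)) ^ p * I
      ≤ 2 ^ (p - 1) * (K * μ univ + (2 ^ p + K)) * (1 + (B : ℝ≥0∞)) *
          (ENNReal.ofReal ((2 * n + 1 : ℝ) ^ p) * ENNReal.ofReal ((1 + Real.log D) ^ (p + 1))) *
            I := mul_le_mul' (mul_le_mul' le_rfl hL) le_rfl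
    _ = c₁ * (1 + B) * ENNReal.ofReal ((1 + Real.log D) ^ (p + 1)) * I := by
        rw [hc₁]
        ring
    _ ≤ (c₁ + 1) * (1 + B) * ENNReal.ofReal ((1 + Real.log D) ^ (p + 1)) * I :=
        mul_le_mul' (mul_le_mul' (mul_le_mul' le_self_add le_rfl) le_rfl) le_rfl

end Pool.Agent.H222.SK.HH
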