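import Pool.Agent.H222.SK.Fwd
import Pool.Agent.H222.SK.Sets

/-!
From the weak type inequality for level sets of polynomials to tubes.
-/

open MeasureTheory Set Metric Filter
open scoped ENNReal NNReal Topology

namespace Pool.Agent.H222.SK

open Pool.Agent.H222.KM.G (Eu cube val kakeyaMax surf TubeBound NonnegPolyBound segmentMax)

variable {n : ℕ}

/-- the positivity set of a polynomial -/
def pos (P : MvPolynomial (Fin n) ℝ) : Set (Eu n) := {x | 0 < val P x}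

theorem lmaxA_pos (Q : MvPolynomial (Fin n) ℝ) (e : Eu n) : lmaxA (pos Q) e = HH.lmax Q e := rfl

theorem pos_semi {D : ℕ} {P : MvPolynomial (Fin n) ℝ} (hP : P.totalDegree ≤ D) :
    SemiAlg n D (pos P) := by
  refine ⟨1, fun _ => P, by simpa using hP, fun x y h hx => ?_⟩
  have h1 := h 0
  have h2 : SignType.sign (MvPolynomial.eval (fun i => x i) P) = 1 := sign_eq_one_iff.2 hx
  rw [h2] at h1
  exact sign_eq_one_iff.1 h1.symm

theorem lmax_le_one (Q : MvPolynomial (Fin n) ℝ) (e : Eu n) : HH.lmax Q e ≤ 1 := by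
  unfold HH.lmax
  refine iSup₂_le fun a _ => (measure_mono (t := Icc (-(1 / 2) : ℝ) (1 / 2)) fun s hs => hs.1).trans ?_
  rw [Real.volume_Icc]
  norm_num

/-- the power of the volume -/
theorem vol_pow {V : ℝ≥0∞} (hV : V ≠ ∞) {D : ℕ} (hD : 1 ≤ D) {K ε : ℝ} (hε : 0 < ε) (hε1 : ε < 1) :
    V ^ (1 - ε) ≤ ENNReal.ofReal ((D : ℝ) ^ (K * ε)) *
      (V + ENNReal.ofReal ((D : ℝ) ^ (-K))) := by
  have hD0 : (0 : ℝ) < D := by exact_mod_cast hD
  set W : ℝ≥0∞ := V + ENNReal.ofReal ((D : ℝ) ^ (-K)) with hW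
  have hpos : 0 < ENNReal.ofReal ((D : ℝ) ^ (-K)) := ENNReal.ofReal_pos.2 (by positivity)
  have hW0 : W ≠ 0 := (hpos.trans_le le_add_self).ne'
  have hWt : W ≠ ∞ := ENNReal.add_ne_top.2 ⟨hV, ENNReal.ofReal_ne_top⟩
  calc V ^ (1 - ε) ≤ W ^ (1 - ε) := ENNReal.rpow_le_rpow le_self_add (by linarith)
    _ = W ^ (-ε) * W := by
        rw [show 1 - ε = -ε + 1 by ring, ENNReal.rpow_add _ _ hW0 hWt, ENNReal.rpow_one]
    _ ≤ ENNReal.ofReal ((D : ℝ) ^ (K * ε)) * W := by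
        refine mul_le_mul' ?_ le_rfl
        rw [ENNReal.rpow_neg]
        have h1 : ENNReal.ofReal ((D : ℝ) ^ (K * ε)) =
            (ENNReal.ofReal ((D : ℝ) ^ (-K)) ^ ε)⁻¹ := by
          rw [ENNReal.ofReal_rpow_of_pos (by positivity), ← Real.rpow_mul hD0.le,
            ← ENNReal.ofReal_inv_of_pos (by positivity), ← Real.rpow_neg hD0.le]
          congr 2
          ring
        rw [h1]
        exact ENNReal.inv_le_inv.2 (ENNReal.rpow_le_rpow le_add_self hε.le)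

/-- powers and logarithms -/
theorem log_pow {t η : ℝ} (ht : 0 < t) (hη : 0 < η) : ∃ C : ℝ, 0 < C ∧ ∀ D : ℕ, 1 ≤ D →
    (1 + Real.log D) ^ t ≤ C * (D : ℝ) ^ η := by
  refine ⟨(1 + t / η) ^ t, by positivity, fun D hD => ?_⟩
  have hD1 : (1 : ℝ) ≤ D := by exact_mod_cast hD
  have hD0 : (0 : ℝ) < D := by linarith
  have hl := Real.log_nonneg hD1
  have h1 : 1 + Real.log D ≤ (1 + t / η) * (D : ℝ) ^ (η / t) := by
    have h2 := Real.log_le_rpow_div hD0.le (ε := η / t) (by positivity)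
    have h3 : (1 : ℝ) ≤ (D : ℝ) ^ (η / t) := Real.one_le_rpow hD1 (by positivity)
    have e3 : (D : ℝ) ^ (η / t) / (η / t) = t / η * (D : ℝ) ^ (η / t) := by field_simp
    rw [e3] at h2
    linarith
  calc (1 + Real.log D) ^ t ≤ ((1 + t / η) * (D : ℝ) ^ (η / t)) ^ t :=
        Real.rpow_le_rpow (by linarith) h1 ht.le
    _ = _ := by
        rw [Real.mul_rpow (by positivity) (by positivity), ← Real.rpow_mul hD0.le]
        congr 2
        field_simp

/-- the weak type inequality for level sets of polynomials -/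
def Weak (n : ℕ) (p : ℝ) : Prop := ∀ ε : ℝ, 0 < ε → ε < 1 → ∃ C : ℝ≥0, ∀ D : ℕ, 1 ≤ D →
  ∀ P : MvPolynomial (Fin n) ℝ, P.totalDegree ≤ D → ∀ l : ℝ, 0 < l →
    ENNReal.ofReal (l ^ p) * surf n {e | ENNReal.ofReal l < lmaxA (pos P) (e : Eu n)} ≤
      C * ENNReal.ofReal ((D : ℝ) ^ ε) * volume (pos P ∩ cube n 2) ^ (1 - ε)

theorem sets_of_weak (hn : 1 ≤ n) {p : ℝ} (hp : 1 ≤ p) (h : Weak n p) {η : ℝ} (hη : 0 < η) :
    ∃ B : ℝ≥0, ∀ D : ℕ, 1 ≤ D → ∀ Q : MvPolynomial (Fin n) ℝ, Q.totalDegree ≤ D →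
      ∫⁻ e, HH.lmax Q (e : Eu n) ^ p ∂(surf n) ≤
        (B * Real.toNNReal ((D : ℝ) ^ η) : ℝ≥0) * (volume {x : Eu n | (∀ i, |x i| ≤ 2) ∧
          0 < MvPolynomial.eval (fun i => x i) Q} + ENNReal.ofReal ((D : ℝ) ^ (-(n * p)))) := by
  have hp0 : 0 < p := by linarith
  set K : ℝ := n * p with hK
  have hK0 : 0 ≤ K := by positivity
  set ε : ℝ := min (1 / 2) (η / (2 * (1 + K))) with hε
  have hε0 : 0 < ε := by rw [hε]; positivity
  have hε1 : ε < 1 := lt_of_le_of_lt (min_le_left _ _) (by norm_num)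
  have hε2 : ε * (1 + K) ≤ η / 2 := by
    have h1 : ε ≤ η / (2 * (1 + K)) := min_le_right _ _
    calc ε * (1 + K) ≤ η / (2 * (1 + K)) * (1 + K) := by gcongr
      _ = η / 2 := by field_simp
  obtain ⟨C₁, h1⟩ := h ε hε0 hε1
  obtain ⟨C₂, hC₂, h2⟩ := log_pow (t := 1) (η := η / 2) (by norm_num) (by positivity)
  refine ⟨(surf n univ).toNNReal + C₁ * Real.toNNReal (p * n * C₂), fun D hD Q hQ => ?_⟩
  have hD1 : (1 : ℝ) ≤ D := by exact_mod_cast hD
  have hD0 : (0 : ℝ) < D := by linarith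
  have hl := Real.log_nonneg hD1
  have hset : {x : Eu n | (∀ i, |x i| ≤ 2) ∧ 0 < MvPolynomial.eval (fun i => x i) Q} =
      pos Q ∩ cube n 2 := by
    ext x
    exact and_comm
  rw [hset]
  set V : ℝ≥0∞ := volume (pos Q ∩ cube n 2) with hV
  have hVt : V ≠ ∞ := ne_top_of_le_ne_top Pool.Agent.H222.KP.cube_fin (measure_mono inter_subset_right)
  set W : ℝ := V.toReal + (D : ℝ) ^ (-K) with hW
  have hW0 : 0 ≤ W := by positivity
  have hWe : ENNReal.ofReal W = V + ENNReal.ofReal ((D : ℝ) ^ (-K)) := by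
    rw [hW, ENNReal.ofReal_add ENNReal.toReal_nonneg (by positivity), ENNReal.ofReal_toReal hVt]
  set A : ℝ := C₁ * (D : ℝ) ^ (η / 2) * W with hA
  have hA0 : 0 ≤ A := by positivity
  have hAe : ENNReal.ofReal A = C₁ * ENNReal.ofReal ((D : ℝ) ^ (η / 2)) * ENNReal.ofReal W := by
    rw [hA, ENNReal.ofReal_mul (by positivity), ENNReal.ofReal_mul (NNReal.coe_nonneg _),
      ENNReal.ofReal_coe_nnreal]
  set m : ℝ := (D : ℝ) ^ (-(n : ℝ)) with hm
  have hm0 : 0 < m := by positivity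
  have hm1 : m ≤ 1 := Real.rpow_le_one_of_one_le_of_nonpos hD1 (by simp)
  have hmp : m ^ p = (D : ℝ) ^ (-K) := by
    rw [hm, ← Real.rpow_mul hD0.le, hK]
    congr 1
    ring
  have hlog : Real.log (1 / m) = n * Real.log D := by
    rw [one_div, Real.log_inv, hm, Real.log_rpow hD0]
    ring
  have key := Pool.Agent.H222.KM.weak_to_strong (μ := surf n)
    (F := fun e : sphere (0 : Eu n) 1 => HH.lmax Q (e : Eu n))
    ((HH.lmax_meas Q).comp measurable_subtype_coe) hp (A := A) (L := 1) (m := m) hA0 hm0 hm1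
    (fun e => by rw [ENNReal.ofReal_one]; exact lmax_le_one Q e) (fun l hl0 => by
      refine (h1 D hD Q hQ l hl0).trans ?_
      rw [hAe, hWe]
      calc (C₁ : ℝ≥0∞) * ENNReal.ofReal ((D : ℝ) ^ ε) * V ^ (1 - ε)
          ≤ C₁ * ENNReal.ofReal ((D : ℝ) ^ ε) * (ENNReal.ofReal ((D : ℝ) ^ (K * ε)) *
            (V + ENNReal.ofReal ((D : ℝ) ^ (-K)))) := by
            gcongr
            exact vol_pow hVt hD hε0 hε1
        _ = C₁ * (ENNReal.ofReal ((D : ℝ) ^ ε) * ENNReal.ofReal ((D : ℝ) ^ (K * ε))) *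
            (V + ENNReal.ofReal ((D : ℝ) ^ (-K))) := by ring
        _ ≤ C₁ * ENNReal.ofReal ((D : ℝ) ^ (η / 2)) * (V + ENNReal.ofReal ((D : ℝ) ^ (-K))) := by
            gcongr
            rw [← ENNReal.ofReal_mul (by positivity), ← Real.rpow_add hD0]
            refine ENNReal.ofReal_le_ofReal (Real.rpow_le_rpow_of_exponent_le hD1 ?_)
            linarith)
  refine key.trans ?_
  rw [hmp, hlog]
  have hlog2 : (n : ℝ) * Real.log D ≤ n * (C₂ * (D : ℝ) ^ (η / 2)) := by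
    have h3 := h2 D hD
    rw [Real.rpow_one] at h3
    gcongr
    linarith
  have hfirst : ENNReal.ofReal ((D : ℝ) ^ (-K)) * surf n univ ≤
      ((surf n univ).toNNReal * Real.toNNReal ((D : ℝ) ^ η) : ℝ≥0) * ENNReal.ofReal W := by
    rw [ENNReal.coe_mul, ENNReal.coe_toNNReal (measure_ne_top _ _)]
    have h3 : (1 : ℝ≥0∞) ≤ ((Real.toNNReal ((D : ℝ) ^ η) : ℝ≥0) : ℝ≥0∞) := by
      change 1 ≤ ENNReal.ofReal ((D : ℝ) ^ η)
      rw [← ENNReal.ofReal_one]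
      exact ENNReal.ofReal_le_ofReal (Real.one_le_rpow hD1 hη.le)
    calc ENNReal.ofReal ((D : ℝ) ^ (-K)) * surf n univ
        = surf n univ * 1 * ENNReal.ofReal ((D : ℝ) ^ (-K)) := by ring
      _ ≤ _ := by
          gcongr
          exact le_add_of_nonneg_left ENNReal.toReal_nonneg
  have hsecond : ENNReal.ofReal (p * A * (n * Real.log D)) ≤
      (C₁ * Real.toNNReal (p * n * C₂) * Real.toNNReal ((D : ℝ) ^ η) : ℝ≥0) *
        ENNReal.ofReal W := by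
    have e1 : (((C₁ * Real.toNNReal (p * n * C₂) * Real.toNNReal ((D : ℝ) ^ η) : ℝ≥0)) : ℝ≥0∞) *
        ENNReal.ofReal W = ENNReal.ofReal (C₁ * (p * n * C₂) * (D : ℝ) ^ η * W) := by
      rw [ENNReal.ofReal_mul (by positivity), ENNReal.ofReal_mul (by positivity),
        ENNReal.ofReal_mul (by positivity), ENNReal.ofReal_coe_nnreal]
      rfl
    rw [e1]
    refine ENNReal.ofReal_le_ofReal ?_
    calc p * A * (n * Real.log D) ≤ p * A * (n * (C₂ * (D : ℝ) ^ (η / 2))) := by gcongr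
      _ = C₁ * (p * n * C₂) * ((D : ℝ) ^ (η / 2) * (D : ℝ) ^ (η / 2)) * W := by rw [hA]; ring
      _ = _ := by
          rw [← Real.rpow_add hD0]
          congr 3
          ring
  calc ENNReal.ofReal ((D : ℝ) ^ (-K)) * surf n univ + ENNReal.ofReal (p * A * (n * Real.log D))
      ≤ ((surf n univ).toNNReal * Real.toNNReal ((D : ℝ) ^ η) : ℝ≥0) * ENNReal.ofReal W +
        (C₁ * Real.toNNReal (p * n * C₂) * Real.toNNReal ((D : ℝ) ^ η) : ℝ≥0) *
          ENNReal.ofReal W := add_le_add hfirst hsecond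
    _ = _ := by
        rw [hWe, ← add_mul]
        congr 1
        rw [← ENNReal.coe_add]
        congr 1
        ring

/-- from level sets to nonnegative polynomials and tubes -/
theorem tube_of_weak (hn : 1 ≤ n) {p : ℝ} (hp : 1 ≤ p) (h : Weak n p) :
    ∀ ε : ℝ, 0 < ε → ∃ C : ℝ≥0, ∀ δ : ℝ, 0 < δ → δ < 1 →
      TubeBound n p δ (C * ENNReal.ofReal (δ ^ (-(0 + ε)))) := by
  refine (Pool.Agent.H222.KM.G.exponents hn hp le_rfl).2 fun ε hε => ?_
  obtain ⟨B, hB⟩ := sets_of_weak hn hp h (η := ε / 2) (by positivity)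
  obtain ⟨C₁, h1⟩ := HH.poly_of_sets (n := n) hp (μ := surf n) (fun M P hP x hx =>
    Pool.Agent.H222.KP.nikn (fun p M hp x hx => Pool.Agent.H222.KP.nik1 p M hp x hx) n M P hP x hx)
  obtain ⟨C₂, hC₂, h2⟩ := log_pow (t := p + 1) (η := ε / 2) (by linarith) (by positivity)
  refine ⟨C₁ * (1 + B) * Real.toNNReal C₂, fun D hD P hP hP0 => ?_⟩
  have hD1 : (1 : ℝ) ≤ D := by exact_mod_cast hD
  have hD0 : (0 : ℝ) < D := by linarith
  have h3 := h1 D hD (B * Real.toNNReal ((D : ℝ) ^ (ε / 2))) (hB D hD) P hP hP0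
  refine (show _ ≤ _ from h3).trans (mul_le_mul' ?_ le_rfl)
  have e0 : ((Real.toNNReal ((D : ℝ) ^ (ε / 2)) : ℝ≥0) : ℝ≥0∞) = ENNReal.ofReal ((D : ℝ) ^ (ε / 2)) := rfl
  have e1 : (1 : ℝ≥0∞) + (B * Real.toNNReal ((D : ℝ) ^ (ε / 2)) : ℝ≥0) ≤
      (1 + B : ℝ≥0) * ENNReal.ofReal ((D : ℝ) ^ (ε / 2)) := by
    rw [ENNReal.coe_mul, e0, ENNReal.coe_add, ENNReal.coe_one, add_mul, one_mul]
    gcongr
    rw [← ENNReal.ofReal_one]
    exact ENNReal.ofReal_le_ofReal (Real.one_le_rpow hD1 (by positivity))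
  have e2 : ENNReal.ofReal ((1 + Real.log D) ^ (p + 1)) ≤
      (Real.toNNReal C₂ : ℝ≥0) * ENNReal.ofReal ((D : ℝ) ^ (ε / 2)) := by
    change _ ≤ ENNReal.ofReal C₂ * _
    rw [← ENNReal.ofReal_mul hC₂.le]
    exact ENNReal.ofReal_le_ofReal (h2 D hD)
  calc (C₁ : ℝ≥0∞) * (1 + (B * Real.toNNReal ((D : ℝ) ^ (ε / 2)) : ℝ≥0)) *
        ENNReal.ofReal ((1 + Real.log D) ^ (p + 1))
      ≤ C₁ * ((1 + B : ℝ≥0) * ENNReal.ofReal ((D : ℝ) ^ (ε / 2))) *
        ((Real.toNNReal C₂ : ℝ≥0) * ENNReal.ofReal ((D : ℝ) ^ (ε / 2))) := by gcongr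
    _ = C₁ * (1 + B : ℝ≥0) * (Real.toNNReal C₂ : ℝ≥0) *
        (ENNReal.ofReal ((D : ℝ) ^ (ε / 2)) * ENNReal.ofReal ((D : ℝ) ^ (ε / 2))) := by ring
    _ = _ := by
        rw [← ENNReal.ofReal_mul (by positivity), ← Real.rpow_add hD0, zero_add, add_halves]
        push_cast
        ring

end Pool.Agent.H222.SK
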