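import Pool.Graph.R_seed8.H247R2.Warren

/-!
Subtask SK-A (owner helper222).  Counting pieces of a real algebraic set by critical points.
`Pool.Agent.H247R2.Warren.zero_count` (library, imported): common zeros of `z i ^ D = g i (z)` with
`deg g i < D` are at most `D ^ n` in number.
-/

open Set MvPolynomial

namespace Pool.Agent.H222.SK

theorem crit_point {n : ℕ} (D : ℕ) (P : MvPolynomial (Fin n) ℝ)
    (U K : Set (Fin n → ℝ)) (hU : IsOpen U) (hK : IsCompact K) (hUK : U ⊆ K)
    (hb : ∀ x ∈ K \ U, eval x P ≤ 0) (ε : ℝ) (hε : 0 < ε) (y : Fin n → ℝ) (hy : y ∈ U)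
    (hpos : ε * ∑ i, y i ^ (2 * (D + 1)) < eval y P) :
    ∃ x ∈ U, ∀ i, x i ^ (2 * D + 1) = eval x (C (1 / (ε * (2 * (D + 1)))) * pderiv i P) := by
  classical
  set G : (Fin n → ℝ) → ℝ := fun x => eval x P - ε * ∑ i, x i ^ (2 * (D + 1)) with hG
  have hGcont : Continuous G := by
    apply Continuous.sub
    · exact continuous_eval P
    · exact continuous_const.mul (continuous_finsetSum _ (fun i _ => (continuous_apply i).pow _))
  have hG0 : 0 < G y := by simp only [hG]; linarith
  obtain ⟨x, hxK, hmax⟩ := hK.exists_isMaxOn ⟨y, hUK hy⟩ hGcont.continuousOn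
  have hGx : 0 < G x := lt_of_lt_of_le hG0 (hmax (hUK hy))
  have hxU : x ∈ U := by
    by_contra hcon
    have h1 := hb x ⟨hxK, hcon⟩
    have h2 : 0 ≤ ε * ∑ i, x i ^ (2 * (D + 1)) := by
      apply mul_nonneg hε.le
      apply Finset.sum_nonneg
      intro i _
      rw [pow_mul]; positivity
    simp only [hG] at hGx
    linarith
  refine ⟨x, hxU, ?_⟩
  intro i
  have hloc : IsLocalMax G x := by
    filter_upwards [hU.mem_nhds hxU] with z hz
    exact hmax (hUK hz)
  have hupd : Function.update x i (x i) = x := Function.update_eq_self i x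
  have hcontU : Continuous (fun t => Function.update x i t) := by
    exact continuous_const.update i continuous_id
  have hloc2 : IsLocalMax (fun t => G (Function.update x i t)) (x i) := by
    have : Filter.Tendsto (fun t => Function.update x i t) (nhds (x i)) (nhds x) := by
      have h := hcontU.tendsto (x i)
      rwa [hupd] at h
    have h2 := this.eventually hloc
    change ∀ᶠ t in nhds (x i), G (Function.update x i t) ≤ G (Function.update x i (x i))
    rw [hupd]
    exact h2
  have hder : HasDerivAt (fun t => G (Function.update x i t))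
      (eval x (pderiv i P) - ε * (2 * (D + 1) * x i ^ (2 * D + 1))) (x i) := by
    have d1 := Pool.Agent.H247R2.Warren.hasDerivAt_update x i P (x i)
    rw [hupd] at d1
    have d2 : HasDerivAt (fun t => ∑ k, (Function.update x i t k) ^ (2 * (D + 1)))
        (2 * (D + 1) * x i ^ (2 * D + 1)) (x i) := by
      have e : ∀ k, HasDerivAt (fun t => (Function.update x i t k) ^ (2 * (D + 1)))
          (if k = i then 2 * (D + 1) * x i ^ (2 * D + 1) else 0) (x i) := by
        intro k
        by_cases hk : k = i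
        · subst hk
          simp only [Function.update_self, if_true]
          refine (hasDerivAt_pow (2 * (D + 1)) (x k)).congr_deriv ?_
          rw [show 2 * (D + 1) - 1 = 2 * D + 1 by omega]
          push_cast
          ring
        · simp only [Function.update_of_ne hk, if_neg hk]
          exact hasDerivAt_const _ _
      have := HasDerivAt.fun_sum (fun k (_ : k ∈ Finset.univ) => e k)
      rw [Finset.sum_ite_eq' Finset.univ i, if_pos (Finset.mem_univ i)] at this
      exact this
    have d3 := d1.fun_sub (d2.const_mul ε)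
    have e : (fun t => G (Function.update x i t)) = fun t => eval (Function.update x i t) P -
        ε * ∑ k, (Function.update x i t k) ^ (2 * (D + 1)) := by
      funext t
      simp [hG]
    rw [e]
    exact d3
  have h0 := hloc2.hasDerivAt_eq_zero hder
  rw [map_mul, eval_C]
  have hne : ε * (2 * ((D : ℝ) + 1)) ≠ 0 := by positivity
  field_simp
  linarith

theorem crit_neg {n : ℕ} (D : ℕ) (P : MvPolynomial (Fin n) ℝ) (hP : P.totalDegree ≤ D) {J : Type}
    (s : Finset J) (U K : J → Set (Fin n → ℝ)) (hU : ∀ j ∈ s, IsOpen (U j))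
    (hK : ∀ j ∈ s, IsCompact (K j)) (hUK : ∀ j ∈ s, U j ⊆ K j)
    (hdis : ∀ i ∈ s, ∀ j ∈ s, i ≠ j → Disjoint (U i) (U j))
    (hb : ∀ j ∈ s, ∀ x ∈ K j \ U j, eval x P ≤ 0) (hy : ∀ j ∈ s, ∃ y ∈ U j, 0 < eval y P) :
    s.card ≤ (2 * D + 1) ^ n := by
  classical
  have hy' : ∀ j, ∃ y : Fin n → ℝ, j ∈ s → y ∈ U j ∧ 0 < eval y P := by
    intro j
    by_cases hj : j ∈ s
    · obtain ⟨y, h1, h2⟩ := hy j hj
      exact ⟨y, fun _ => ⟨h1, h2⟩⟩
    · exact ⟨0, fun h => absurd h hj⟩
  choose y hyU using hy'
  have hev : ∀ᶠ ε in nhdsWithin (0 : ℝ) (Ioi 0), ∀ j ∈ s,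
      ε * ∑ i, y j i ^ (2 * (D + 1)) < eval (y j) P := by
    rw [Filter.eventually_all_finset]
    intro j hj
    have hc : Continuous (fun ε : ℝ => ε * ∑ i, y j i ^ (2 * (D + 1))) :=
      continuous_id.mul continuous_const
    have h1 : ∀ᶠ ε in nhds (0 : ℝ), ε * ∑ i, y j i ^ (2 * (D + 1)) < eval (y j) P := by
      refine hc.continuousAt.eventually (gt_mem_nhds ?_)
      simpa using (hyU j hj).2
    exact h1.filter_mono nhdsWithin_le_nhds
  obtain ⟨ε, hε1, hε⟩ := (hev.and self_mem_nhdsWithin).exists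
  have hε0 : 0 < ε := hε
  have hz' : ∀ j, ∃ z : Fin n → ℝ, j ∈ s → z ∈ U j ∧
      ∀ i, z i ^ (2 * D + 1) = eval z (C (1 / (ε * (2 * (D + 1)))) * pderiv i P) := by
    intro j
    by_cases hj : j ∈ s
    · obtain ⟨z, h1, h2⟩ := crit_point D P (U j) (K j) (hU j hj) (hK j hj) (hUK j hj) (hb j hj) ε hε0
        (y j) (hyU j hj).1 (hε1 j hj)
      exact ⟨z, fun _ => ⟨h1, h2⟩⟩
    · exact ⟨0, fun h => absurd h hj⟩
  choose z hz using hz'
  have hinj : Set.InjOn z s := by
    intro i hi j hj hij
    by_contra hne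
    have h1 := (hz i hi).1
    have h2 := (hz j hj).1
    rw [hij] at h1
    exact Set.disjoint_left.mp (hdis i hi j hj hne) h1 h2
  have hcard : (s.image z).card = s.card := Finset.card_image_of_injOn hinj
  rw [← hcard]
  have hfin := Pool.Agent.H247R2.Warren.zero_count (2 * D + 1)
    (fun i => C (1 / (ε * (2 * (D + 1)))) * pderiv i P)
    (fun i => ?_) (s.image z) ?_
  · simpa using hfin
  · have h1 := Pool.Agent.H247R2.Warren.totalDegree_pderiv_le i P
    have h2 := totalDegree_mul (C (1 / (ε * (2 * (D + 1))))) (pderiv i P)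
    rw [totalDegree_C] at h2
    omega
  · intro w hw i
    obtain ⟨j, hj, rfl⟩ := Finset.mem_image.mp hw
    exact (hz j hj).2 i

end Pool.Agent.H222.SK
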