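import Pool.Graph.R_seed8.H247R2.Warren

/-!
Subtask SK-A (owner helper222).  Counting pieces of a real algebraic set by critical points.
`Pool.Agent.H247R2.Warren.zero_count` (library, imported): common zeros of `z i ^ D = g i (z)` with
`deg g i < D` are at most `D ^ n` in number.
-/

open Set MvPolynomial

namespace Pool.Agent.H222.SK

theorem crit_min {n : ℕ} (D : ℕ) (P : MvPolynomial (Fin n) ℝ)
    (U K : Set (Fin n → ℝ)) (hU : IsOpen U) (hK : IsCompact K) (hUK : U ⊆ K)
    (hb : ∀ x ∈ K \ U, 0 < eval x P) (hy : ∃ y ∈ U, eval y P ≤ 0) :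
    ∀ᶠ ε in nhdsWithin (0 : ℝ) (Set.Ioi 0), ∃ z ∈ U,
      IsMinOn (fun x => eval x P + ε * ∑ i, x i ^ (2 * (D + 1))) K z := by
  obtain ⟨y, hyU, hyP⟩ := hy
  have hyK := hUK hyU
  have hPc : Continuous (fun x : Fin n → ℝ => eval x P) := continuous_eval P
  have hGc : Continuous (fun x : Fin n → ℝ => ∑ i, x i ^ (2 * (D + 1))) :=
    continuous_finsetSum _ (fun i _ => (continuous_apply i).pow _)
  have hG0 : ∀ x : Fin n → ℝ, 0 ≤ ∑ i, x i ^ (2 * (D + 1)) := by
    intro x
    refine Finset.sum_nonneg fun i _ => ?_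
    rw [pow_mul]
    positivity
  obtain ⟨c, hc, hcP⟩ : ∃ c : ℝ, 0 < c ∧ ∀ x ∈ K \ U, c ≤ eval x P := by
    rcases (K \ U).eq_empty_or_nonempty with h | h
    · exact ⟨1, one_pos, fun x hx => by rw [h] at hx; exact absurd hx (Set.notMem_empty x)⟩
    · obtain ⟨x, hx, hmin⟩ := (hK.diff hU).exists_isMinOn h hPc.continuousOn
      exact ⟨eval x P, hb x hx, fun x' hx' => hmin hx'⟩
  have hpos : 0 < c / ((∑ i, y i ^ (2 * (D + 1))) + 1) := by
    have := hG0 y
    positivity
  filter_upwards [Ioo_mem_nhdsGT hpos] with ε hε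
  obtain ⟨hε0, hε1⟩ := hε
  have hcont : Continuous (fun x : Fin n → ℝ => eval x P + ε * ∑ i, x i ^ (2 * (D + 1))) :=
    hPc.add (continuous_const.mul hGc)
  obtain ⟨z, hzK, hz⟩ := hK.exists_isMinOn ⟨y, hyK⟩ hcont.continuousOn
  refine ⟨z, ?_, hz⟩
  by_contra hzU
  have h1 : eval z P + ε * ∑ i, z i ^ (2 * (D + 1)) ≤ eval y P + ε * ∑ i, y i ^ (2 * (D + 1)) :=
    hz hyK
  have h2 := hcP z ⟨hzK, hzU⟩
  have h3 := mul_nonneg hε0.le (hG0 z)
  have h4 := hG0 y
  rw [lt_div_iff₀ (by positivity)] at hε1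
  nlinarith

theorem crit_eq {n : ℕ} (D : ℕ) (P : MvPolynomial (Fin n) ℝ)
    (U K : Set (Fin n → ℝ)) (hU : IsOpen U) (hUK : U ⊆ K) (ε : ℝ) (hε : 0 < ε)
    (x : Fin n → ℝ) (hx : x ∈ U)
    (hmin : IsMinOn (fun x => eval x P + ε * ∑ i, x i ^ (2 * (D + 1))) K x) (i : Fin n) :
    x i ^ (2 * D + 1) = eval x (C (-1 / (ε * (2 * (D + 1)))) * pderiv i P) := by
  classical
  set G : (Fin n → ℝ) → ℝ := fun x => eval x P + ε * ∑ i, x i ^ (2 * (D + 1)) with hG
  have hloc : IsLocalMin G x := by
    filter_upwards [hU.mem_nhds hx] with y hy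
    exact hmin (hUK hy)
  have hupd : Function.update x i (x i) = x := Function.update_eq_self i x
  have hcontU : Continuous (fun t => Function.update x i t) :=
    continuous_const.update i continuous_id
  have hloc2 : IsLocalMin (fun t => G (Function.update x i t)) (x i) := by
    have : Filter.Tendsto (fun t => Function.update x i t) (nhds (x i)) (nhds x) := by
      have h := hcontU.tendsto (x i)
      rwa [hupd] at h
    have h2 := this.eventually hloc
    change ∀ᶠ t in nhds (x i), G (Function.update x i (x i)) ≤ G (Function.update x i t)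
    rw [hupd]
    exact h2
  have hder : HasDerivAt (fun t => G (Function.update x i t))
      (eval x (pderiv i P) + ε * (2 * (D + 1) * x i ^ (2 * D + 1))) (x i) := by
    have d1 := Pool.Agent.H247R2.Warren.hasDerivAt_update x i P (x i)
    rw [hupd] at d1
    have d2 : HasDerivAt (fun t => ∑ k, (Function.update x i t k) ^ (2 * (D + 1)))
        (2 * (D + 1) * x i ^ (2 * D + 1)) (x i) := by
      have e : ∀ k, HasDerivAt (fun t => (Function.update x i t k) ^ (2 * (D + 1)))
          (if k = i then 2 * (D + 1) * x i ^ (2 * D + 1) else 0) (x i) := by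
        intro k
        by_cases hk : k = i
        · subst hk
          simp only [Function.update_self, if_true]
          refine (hasDerivAt_pow (2 * (D + 1)) (x k)).congr_deriv ?_
          rw [show 2 * (D + 1) - 1 = 2 * D + 1 by omega]
          push_cast
          ring
        · simp only [Function.update_of_ne hk, if_neg hk]
          exact hasDerivAt_const _ _
      have := HasDerivAt.fun_sum (fun k (_ : k ∈ Finset.univ) => e k)
      rw [Finset.sum_ite_eq' Finset.univ i, if_pos (Finset.mem_univ i)] at this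
      exact this
    exact d1.fun_add (d2.const_mul ε)
  have h0 := hloc2.hasDerivAt_eq_zero hder
  rw [map_mul, eval_C]
  have hne : ε * (2 * ((D : ℝ) + 1)) ≠ 0 := by positivity
  field_simp
  linarith

/-- Paper proof. Let `b = 2 D + 1`, `G x = ∑ i, x i ^ (b + 1) ≥ 0` (even power).  For each `j ∈ s` the
minimum over the compact set `K j` of `P + ε G` is attained, for all sufficiently small `ε > 0`
(finitely many `j`, one `ε`), in `U j`: on the compact set `K j \ U j` we have `P + ε G ≥ P ≥ c > 0`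
(if that set is nonempty), at the point `y` it is `≤ ε G y < c`.  So there is a local minimum `z j ∈ U j`
(`U j` open), where all first derivatives vanish: `ε (b + 1) (z j i) ^ b + (∂ i P) (z j) = 0`
(`Pool.Agent.H247R2.Warren.hasDerivAt_update`, `totalDegree_pderiv_le` may help).  The points `z j` are
distinct (disjoint `U j`), and `zero_count` with the exponent `b` bounds their number. -/
theorem crit_pos {n : ℕ} (D : ℕ) (P : MvPolynomial (Fin n) ℝ) (hP : P.totalDegree ≤ D) {J : Type}
    (s : Finset J) (U K : J → Set (Fin n → ℝ)) (hU : ∀ j ∈ s, IsOpen (U j))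
    (hK : ∀ j ∈ s, IsCompact (K j)) (hUK : ∀ j ∈ s, U j ⊆ K j)
    (hdis : ∀ i ∈ s, ∀ j ∈ s, i ≠ j → Disjoint (U i) (U j))
    (hb : ∀ j ∈ s, ∀ x ∈ K j \ U j, 0 < eval x P) (hy : ∀ j ∈ s, ∃ y ∈ U j, eval y P ≤ 0) :
    s.card ≤ (2 * D + 1) ^ n := by
  classical
  have h1 : ∀ᶠ ε in nhdsWithin (0 : ℝ) (Set.Ioi 0), ∀ j ∈ s, ∃ z ∈ U j,
      IsMinOn (fun x => eval x P + ε * ∑ i, x i ^ (2 * (D + 1))) (K j) z :=
    (Finset.eventually_all s).2 fun j hj =>
      crit_min D P (U j) (K j) (hU j hj) (hK j hj) (hUK j hj) (hb j hj) (hy j hj)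
  obtain ⟨ε, hε, hε0⟩ := (h1.and self_mem_nhdsWithin).exists
  have hε0 : 0 < ε := hε0
  choose! z hzU hz using hε
  have hinj : Set.InjOn z (s : Set J) := by
    intro i hi j hj hij
    by_contra hne
    exact Set.disjoint_left.1 (hdis i hi j hj hne) (hzU i hi) (hij ▸ hzU j hj)
  have hdeg : ∀ i : Fin n,
      (C (-1 / (ε * (2 * ((D : ℝ) + 1)))) * pderiv i P : MvPolynomial (Fin n) ℝ).totalDegree <
        2 * D + 1 := by
    intro i
    have h1 := totalDegree_mul (C (-1 / (ε * (2 * ((D : ℝ) + 1)))) : MvPolynomial (Fin n) ℝ)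
      (pderiv i P)
    have h2 := Pool.Agent.H247R2.Warren.totalDegree_pderiv_le i P
    rw [totalDegree_C] at h1
    omega
  have := Pool.Agent.H247R2.Warren.zero_count (2 * D + 1) _ hdeg (s.image z) (by
    intro w hw i
    rw [Finset.mem_image] at hw
    obtain ⟨j, hj, rfl⟩ := hw
    exact crit_eq D P (U j) (K j) (hU j hj) (hUK j hj) ε hε0 (z j) (hzU j hj) (hz j hj) i)
  rw [Finset.card_image_of_injOn hinj, Fintype.card_fin] at this
  exact this

end Pool.Agent.H222.SK
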