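import Mathlib

/-!
Subtask SK-B (owner helper222).  Sign changes of a polynomial on a grid; restriction to a coordinate
hyperplane; faces of a box.
-/

open Set MvPolynomial

namespace Pool.Agent.H222.SK

/-- Paper proof. If `p = 0` then `s = ∅`.  Otherwise (intermediate value theorem) each closed interval
`[k h, (k+1) h]`, `k ∈ s`, contains a root of `p`, a root lies in at most two of these intervals, and
there are at most `D` roots. -/
theorem one_dim (p : Polynomial ℝ) (D : ℕ) (hp : p.natDegree ≤ D) {h : ℝ} (hh : 0 < h) (s : Finset ℤ)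
    (hs : ∀ k ∈ s, (∃ x ∈ Icc ((k : ℝ) * h) (((k : ℝ) + 1) * h), 0 < p.eval x) ∧
      ∃ x ∈ Icc ((k : ℝ) * h) (((k : ℝ) + 1) * h), p.eval x ≤ 0) : s.card ≤ 2 * D := by
  classical
  by_cases hp0 : p = 0
  · have hse : s = ∅ := by
      apply Finset.eq_empty_of_forall_notMem
      intro k hk
      obtain ⟨⟨x, _, hx⟩, _⟩ := hs k hk
      rw [hp0, Polynomial.eval_zero] at hx
      exact lt_irrefl _ hx
    rw [hse, Finset.card_empty]
    exact Nat.zero_le _
  · have hroot : ∀ k ∈ s, ∃ r ∈ Icc ((k : ℝ) * h) (((k : ℝ) + 1) * h), p.eval r = 0 := by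
      intro k hk
      obtain ⟨⟨x, hxI, hx⟩, ⟨y, hyI, hy⟩⟩ := hs k hk
      have hpre : IsPreconnected (Icc ((k : ℝ) * h) (((k : ℝ) + 1) * h)) := isPreconnected_Icc
      obtain ⟨r, hr, hr0⟩ := hpre.intermediate_value hyI hxI
        (f := fun t => p.eval t) (p.continuous.continuousOn) ⟨hy, hx.le⟩
      exact ⟨r, hr, hr0⟩
    choose! r hrI hr0 using hroot
    have hmaps : ∀ k ∈ s, r k ∈ p.roots.toFinset := by
      intro k hk
      rw [Multiset.mem_toFinset, Polynomial.mem_roots hp0]
      exact hr0 k hk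
    have hfib : ∀ b ∈ p.roots.toFinset, (s.filter (fun k => r k = b)).card ≤ 2 := by
      intro b _
      have hsub : s.filter (fun k => r k = b) ⊆ ({⌊b / h⌋ - 1, ⌊b / h⌋} : Finset ℤ) := by
        intro k hk
        rw [Finset.mem_filter] at hk
        obtain ⟨hks, hkb⟩ := hk
        obtain ⟨h1, h2⟩ := hrI k hks
        rw [hkb] at h1 h2
        have h3 : (k : ℝ) ≤ b / h := by rwa [le_div_iff₀ hh]
        have h4 : b / h ≤ (k : ℝ) + 1 := by rwa [div_le_iff₀ hh]
        have h5 : k ≤ ⌊b / h⌋ := Int.le_floor.mpr h3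
        have h6 : ⌊b / h⌋ ≤ k + 1 := by
          have h7 : ((⌊b / h⌋ : ℤ) : ℝ) ≤ ((k + 1 : ℤ) : ℝ) := by
            push_cast
            exact (Int.floor_le _).trans h4
          exact_mod_cast h7
        rw [Finset.mem_insert, Finset.mem_singleton]
        omega
      exact (Finset.card_le_card hsub).trans Finset.card_le_two
    have hcard := Finset.card_le_mul_card_image_of_maps_to hmaps 2 hfib
    have h8 : p.roots.toFinset.card ≤ D :=
      ((Multiset.toFinset_card_le _).trans (Polynomial.card_roots' p)).trans hp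
    exact hcard.trans (Nat.mul_le_mul_left 2 h8)

/-- Restriction to a hyperplane (substitute a constant; `bind₁` or `aeval`). -/
theorem restr (n : ℕ) (P : MvPolynomial (Fin (n + 1)) ℝ) (i : Fin (n + 1)) (c : ℝ) :
    ∃ Q : MvPolynomial (Fin n) ℝ, Q.totalDegree ≤ P.totalDegree ∧
      ∀ y : Fin n → ℝ, eval y Q = eval (i.insertNth c y : Fin (n + 1) → ℝ) P := by
  classical
  set f : Fin (n + 1) → MvPolynomial (Fin n) ℝ :=
    (i.insertNth (C c) (fun j => X j) : Fin (n + 1) → MvPolynomial (Fin n) ℝ) with hf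
  have hdeg : ∀ j, (f j).totalDegree ≤ 1 := by
    intro j
    refine Fin.succAboveCases i ?_ ?_ j
    · rw [hf, Fin.insertNth_apply_same, totalDegree_C]
      exact Nat.zero_le _
    · intro k
      rw [hf, Fin.insertNth_apply_succAbove]
      exact (totalDegree_X k).le
  have hev : ∀ (y : Fin n → ℝ) j, eval y (f j) = (i.insertNth c y : Fin (n + 1) → ℝ) j := by
    intro y j
    refine Fin.succAboveCases i ?_ ?_ j
    · rw [hf, Fin.insertNth_apply_same, Fin.insertNth_apply_same, eval_C]
    · intro k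
      rw [hf, Fin.insertNth_apply_succAbove, Fin.insertNth_apply_succAbove, eval_X]
  refine ⟨∑ m ∈ P.support, C (coeff m P) * ∏ j, f j ^ m j, ?_, ?_⟩
  · refine totalDegree_finsetSum_le ?_
    intro m hm
    refine (totalDegree_mul _ _).trans ?_
    rw [totalDegree_C, zero_add]
    refine (totalDegree_finsetProd _ _).trans ?_
    have h1 : ∑ j, (f j ^ m j).totalDegree ≤ ∑ j, m j := by
      apply Finset.sum_le_sum
      intro j _
      refine (totalDegree_pow _ _).trans ?_
      calc m j * (f j).totalDegree ≤ m j * 1 := Nat.mul_le_mul_left _ (hdeg j)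
        _ = m j := Nat.mul_one _
    refine h1.trans ?_
    have h2 := le_totalDegree hm
    rwa [Finsupp.sum_fintype _ _ (fun _ => rfl)] at h2
  · intro y
    rw [map_sum]
    conv_rhs => rw [eval_eq']
    apply Finset.sum_congr rfl
    intro m _
    rw [map_mul, eval_C, map_prod]
    congr 1
    apply Finset.prod_congr rfl
    intro j _
    rw [map_pow, hev]

/-- One variable. -/
theorem to_poly (P : MvPolynomial (Fin 1) ℝ) :
    ∃ p : Polynomial ℝ, p.natDegree ≤ P.totalDegree ∧ ∀ t : ℝ, p.eval t = eval (fun _ => t) P := by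
  refine ⟨aeval (fun _ => (Polynomial.X : Polynomial ℝ)) P, ?_, ?_⟩
  · have h := MvPolynomial.aeval_natDegree_le P le_rfl (fun _ => (Polynomial.X : Polynomial ℝ))
      (n := 1) (fun _ => Polynomial.natDegree_X_le)
    rwa [Nat.mul_one] at h
  · intro t
    rw [aeval_def, ← Polynomial.coe_evalRingHom, hom_eval₂]
    congr 1
    · ext x
      simp
    · funext j
      simp

end Pool.Agent.H222.SK
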