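import Mathlib

/-!
Subtask SK-D (owner helper222; proofs by helper864).  The boundary of a box of dimension at least two.
-/

open Set

namespace Pool.Agent.H222.SK

/-- the closed box with index `k` of the grid of step `h` -/
def box {n : ℕ} (h : ℝ) (k : Fin n → ℤ) : Set (Fin n → ℝ) :=
  {x | ∀ i, (k i : ℝ) * h ≤ x i ∧ x i ≤ ((k i : ℝ) + 1) * h}

/-- the open box -/
def obox {n : ℕ} (h : ℝ) (k : Fin n → ℤ) : Set (Fin n → ℝ) :=
  {x | ∀ i, (k i : ℝ) * h < x i ∧ x i < ((k i : ℝ) + 1) * h}

theorem box_compact {n : ℕ} (h : ℝ) (k : Fin n → ℤ) : IsCompact (box h k) := by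
  have e : box h k = Set.pi univ (fun i => Icc ((k i : ℝ) * h) (((k i : ℝ) + 1) * h)) := by
    ext x
    simp only [box, mem_setOf_eq, Set.mem_pi, mem_univ, true_implies, mem_Icc]
  rw [e]
  exact isCompact_univ_pi fun i => isCompact_Icc

theorem obox_open {n : ℕ} (h : ℝ) (k : Fin n → ℤ) : IsOpen (obox h k) := by
  have e : obox h k = Set.pi univ (fun i => Ioo ((k i : ℝ) * h) (((k i : ℝ) + 1) * h)) := by
    ext x
    simp only [obox, mem_setOf_eq, Set.mem_pi, mem_univ, true_implies, mem_Ioo]
  rw [e]
  exact isOpen_set_pi finite_univ fun i _ => isOpen_Ioo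

theorem obox_disj {n : ℕ} {h : ℝ} (hh : 0 < h) {k l : Fin n → ℤ} (hkl : k ≠ l) :
    Disjoint (obox h k) (obox h l) := by
  rw [Set.disjoint_left]
  intro x hx hx'
  apply hkl
  funext i
  have h1 := hx i
  have h2 := hx' i
  have h3 : (k i : ℝ) < (l i : ℝ) + 1 := lt_of_mul_lt_mul_right (h1.1.trans h2.2) hh.le
  have h4 : (l i : ℝ) < (k i : ℝ) + 1 := lt_of_mul_lt_mul_right (h2.1.trans h1.2) hh.le
  have h5 : k i < l i + 1 := by exact_mod_cast h3
  have h6 : l i < k i + 1 := by exact_mod_cast h4
  omega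

/-- If each of the facets of the box (dimension at least two) is contained in `A` or in its
complement, then all the facets are of the same kind: facets in different coordinates have a common
point, and two facets in the same coordinate `i` both meet a facet in another coordinate. -/
theorem faces {n : ℕ} {h : ℝ} (hh : 0 < h) (k : Fin (n + 2) → ℤ) (A : Set (Fin (n + 2) → ℝ))
    (hA : ∀ (i : Fin (n + 2)) (l : ℤ), (l = k i ∨ l = k i + 1) →
      ({x | x ∈ box h k ∧ x i = l * h} ⊆ A ∨ {x | x ∈ box h k ∧ x i = l * h} ⊆ Aᶜ)) :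
    box h k \ obox h k ⊆ A ∨ box h k \ obox h k ⊆ Aᶜ := by
  -- the value of a facet is admissible
  have hv : ∀ (s : Fin (n + 2)) (l : ℤ), (l = k s ∨ l = k s + 1) →
      (k s : ℝ) * h ≤ (l : ℝ) * h ∧ (l : ℝ) * h ≤ ((k s : ℝ) + 1) * h := by
    intro s l hl
    rcases hl with rfl | rfl
    · exact ⟨le_rfl, by nlinarith⟩
    · push_cast
      exact ⟨by nlinarith, le_rfl⟩
  -- facets in different coordinates
  have hne : ∀ (i j : Fin (n + 2)) (l m : ℤ), i ≠ j → (l = k i ∨ l = k i + 1) →
      (m = k j ∨ m = k j + 1) → {x | x ∈ box h k ∧ x i = l * h} ⊆ A →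
      {x | x ∈ box h k ∧ x j = m * h} ⊆ A := by
    intro i j l m hij hl hm hsub
    rcases hA j m hm with h1 | h1
    · exact h1
    · exfalso
      let p : Fin (n + 2) → ℝ := fun s => if s = i then l * h else if s = j then m * h else k s * h
      have hp : p ∈ box h k := by
        intro s
        by_cases hs : s = i
        · have e : p s = l * h := if_pos hs
          rw [e, hs]
          exact hv i l hl
        · by_cases hs' : s = j
          · have e : p s = m * h := by
              show (if s = i then _ else if s = j then _ else _) = _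
              rw [if_neg hs, if_pos hs']
            rw [e, hs']
            exact hv j m hm
          · have e : p s = k s * h := by
              show (if s = i then _ else if s = j then _ else _) = _
              rw [if_neg hs, if_neg hs']
            rw [e]
            exact hv s (k s) (Or.inl rfl)
      have hpi : p i = l * h := if_pos rfl
      have hpj : p j = m * h := by
        show (if j = i then _ else if j = j then _ else _) = _
        rw [if_neg (Ne.symm hij), if_pos rfl]
      exact h1 ⟨hp, hpj⟩ (hsub ⟨hp, hpi⟩)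
  have hall : ∀ (i j : Fin (n + 2)) (l m : ℤ), (l = k i ∨ l = k i + 1) →
      (m = k j ∨ m = k j + 1) → {x | x ∈ box h k ∧ x i = l * h} ⊆ A →
      {x | x ∈ box h k ∧ x j = m * h} ⊆ A := by
    intro i j l m hl hm hsub
    by_cases hij : i = j
    · subst hij
      obtain ⟨j', hj'⟩ := exists_ne i
      exact hne j' i (k j') m hj' (Or.inl rfl) hm
        (hne i j' l (k j') hj'.symm hl (Or.inl rfl) hsub)
    · exact hne i j l m hij hl hm hsub
  have hcov : ∀ x ∈ box h k \ obox h k, ∃ (i : Fin (n + 2)) (l : ℤ), (l = k i ∨ l = k i + 1) ∧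
      x ∈ {x | x ∈ box h k ∧ x i = l * h} := by
    rintro x ⟨hx, hx'⟩
    have h1 : ∃ i, ¬ ((k i : ℝ) * h < x i ∧ x i < ((k i : ℝ) + 1) * h) := by
      by_contra hc
      push Not at hc
      exact hx' fun i => by
        by_contra hcc
        exact absurd (hc i) (fun h => hcc h)
    obtain ⟨i, hi⟩ := h1
    have h2 := hx i
    by_cases h3 : (k i : ℝ) * h < x i
    · refine ⟨i, k i + 1, Or.inr rfl, hx, ?_⟩
      have h4 : ¬ x i < ((k i : ℝ) + 1) * h := fun h5 => hi ⟨h3, h5⟩
      push_cast
      exact le_antisymm h2.2 (not_lt.mp h4)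
    · exact ⟨i, k i, Or.inl rfl, hx, le_antisymm (not_lt.mp h3) h2.1⟩
  by_cases h0 : {x | x ∈ box h k ∧ x 0 = (k 0 : ℝ) * h} ⊆ A
  · left
    intro x hx
    obtain ⟨i, l, hl, hxi⟩ := hcov x hx
    exact hall 0 i (k 0) l (Or.inl rfl) hl h0 hxi
  · right
    intro x hx
    obtain ⟨i, l, hl, hxi⟩ := hcov x hx
    rcases hA i l hl with h1 | h1
    · exact absurd (hall i 0 l (k 0) hl (Or.inl rfl) h1) h0
    · exact h1 hxi

end Pool.Agent.H222.SK
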