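import Pool.Agent.H222.SK.Vol
import Pool.Agent.H222.KM.Grow

/-!
From tubes to segments, for semialgebraic sets.
-/

open MeasureTheory Set Metric Filter
open scoped ENNReal NNReal Topology

namespace Pool.Agent.H222.SK

open Pool.Agent.H222.KM.G (Eu cube val kakeyaMax surf TubeBound)
open Pool.Agent.H222.KP (kmax seg_cube seg_le_kmax cube_meas)
open Pool.Agent.W767.Kc (Phi Av vB vB_ne_zero vB_ne_top)

variable {n : ℕ}

/-- the largest length in which `A` meets a unit segment of direction `e` with the midpoint in the cube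
`[-1/2, 1/2]^n` -/
noncomputable def lmaxA (A : Set (Eu n)) (e : Eu n) : ℝ≥0∞ :=
  ⨆ a ∈ cube n (1 / 2), volume {s : ℝ | s ∈ Icc (-(1 / 2) : ℝ) (1 / 2) ∧ a + s • e ∈ A}

theorem lmaxA_le (hn : 1 ≤ n) {A : Set (Eu n)} (hA : MeasurableSet A) {δ : ℝ} (hδ : 0 < δ)
    (hδ1 : δ ≤ 1) {e : Eu n} (he : ‖e‖ = 1) :
    lmaxA A e ≤ 6 * 2 ^ (n + 1) *
      kmax δ ((thickening (2 * δ) (A ∩ cube n 1)).indicator fun _ => (1 : ℝ≥0∞)) e := by
  set F : Eu n → ℝ≥0∞ := (thickening (2 * δ) (A ∩ cube n 1)).indicator fun _ => (1 : ℝ≥0∞) with hF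
  have hFm : Measurable F := measurable_const.indicator isOpen_thickening.measurableSet
  refine iSup₂_le fun a ha => le_trans ?_ (seg_le_kmax hδ hδ1 hFm a he hn)
  set S : Set ℝ := {s : ℝ | s ∈ Icc (-(1 / 2) : ℝ) (1 / 2) ∧ a + s • e ∈ A} with hS
  have hSm : MeasurableSet S := by
    have h1 : Measurable fun s : ℝ => a + s • e := by fun_prop
    exact measurableSet_Icc.inter (h1 hA)
  have h1 : ∀ s ∈ S, 1 ≤ Phi δ F (a + s • e) := by
    intro s hs
    have h2 : closedBall (a + s • e) δ ⊆ thickening (2 * δ) (A ∩ cube n 1) := by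
      intro y hy
      rw [mem_thickening_iff]
      refine ⟨a + s • e, ⟨hs.2, seg_cube ha he hs.1⟩, ?_⟩
      rw [mem_closedBall] at hy
      linarith
    have h3 : Av δ F (a + s • e) = vB n δ := by
      unfold Av vB
      rw [hF, setLIntegral_indicator isOpen_thickening.measurableSet,
        inter_eq_self_of_subset_right h2, setLIntegral_one, Measure.addHaar_closedBall_center]
    unfold Phi
    rw [h3, ENNReal.inv_mul_cancel (vB_ne_zero n hδ) (vB_ne_top n δ)]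
  calc volume S = ∫⁻ _ in S, 1 := by rw [setLIntegral_one]
    _ ≤ ∫⁻ s in S, Phi δ F (a + s • e) := setLIntegral_mono' hSm h1
    _ ≤ ∫⁻ s in Icc (-(1 / 2) : ℝ) (1 / 2), Phi δ F (a + s • e) :=
        lintegral_mono_set fun s hs => hs.1

/-- from a bound for tubes to semialgebraic sets -/
theorem sa_of_tube (hn : 1 ≤ n) {p : ℝ} (hp : 1 ≤ p) : ∃ C : ℝ≥0, ∀ (D : ℕ) (A : Set (Eu n)),
    SemiAlg n D A → ∀ δ : ℝ, 0 < δ → δ ≤ 1 / 2 → D * δ ≤ 1 → ∀ T : ℝ≥0∞, TubeBound n p δ T →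
    ∫⁻ e, lmaxA A (e : Eu n) ^ p ∂(surf n) ≤
      C * T * (volume (A ∩ cube n 2) + ENNReal.ofReal (D * δ)) := by
  obtain ⟨C, hC⟩ := nbhd_sa n hn
  have hp0 : 0 < p := by linarith
  refine ⟨(6 * 2 ^ (n + 1)) ^ p * (2 * C), fun D A hA δ hδ hδ2 hDδ T hT => ?_⟩
  set U : Set (Eu n) := thickening (2 * δ) (A ∩ cube n 1) with hU
  have hUm : MeasurableSet U := isOpen_thickening.measurableSet
  have hUsub : U ⊆ {x : Eu n | ∃ y ∈ A, (∀ i, |y i| ≤ 1) ∧ ‖x - y‖ ≤ 2 * δ} := by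
    intro x hx
    rw [hU, mem_thickening_iff] at hx
    obtain ⟨y, hy, hxy⟩ := hx
    exact ⟨y, hy.1, hy.2, by rw [← dist_eq_norm]; exact hxy.le⟩
  have hvol : volume U ≤ C * (volume (A ∩ cube n 2) + ENNReal.ofReal (D * (2 * δ))) :=
    (measure_mono hUsub).trans (hC D A hA (2 * δ) (by positivity) (by linarith) (by linarith))
  have hVfin : volume U ≠ ∞ := by
    refine ne_top_of_le_ne_top ?_ hvol
    refine ENNReal.mul_ne_top ENNReal.coe_ne_top (ENNReal.add_ne_top.2 ⟨?_, ENNReal.ofReal_ne_top⟩)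
    exact ne_top_of_le_ne_top Pool.Agent.H222.KP.cube_fin (measure_mono inter_subset_right)
  have hmem : MemLp (U.indicator fun _ => (1 : ℝ)) (ENNReal.ofReal p) :=
    memLp_indicator_const _ hUm _ (Or.inr hVfin)
  have h1 := hT _ hmem
  have h2 : ∫⁻ y, ‖U.indicator (fun _ => (1 : ℝ)) y‖ₑ ^ p = volume U := by
    rw [← lintegral_indicator_one hUm]
    refine lintegral_congr fun y => ?_
    by_cases hy : y ∈ U
    · simp [hy]
    · simp [hy, hp0]
  rw [h2] at h1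
  have h3 : ∀ e : sphere (0 : Eu n) 1, lmaxA A (e : Eu n) ^ p ≤
      (6 * 2 ^ (n + 1)) ^ p * kakeyaMax δ (U.indicator fun _ => (1 : ℝ)) (e : Eu n) ^ p := by
    intro e
    have he : ‖(e : Eu n)‖ = 1 := by simpa using e.2
    have h4 := lmaxA_le hn hA.meas hδ (by linarith) he
    have h5 : kmax δ (U.indicator fun _ => (1 : ℝ≥0∞)) (e : Eu n) =
        kakeyaMax δ (U.indicator fun _ => (1 : ℝ)) (e : Eu n) := by
      unfold kakeyaMax kmax
      refine iSup_congr fun b => ?_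
      congr 1
      refine lintegral_congr fun y => ?_
      by_cases hy : y ∈ U
      · simp [hy]
      · simp [hy]
    rw [h5] at h4
    rw [← ENNReal.mul_rpow_of_nonneg _ _ hp0.le]
    exact ENNReal.rpow_le_rpow h4 hp0.le
  calc ∫⁻ e, lmaxA A (e : Eu n) ^ p ∂(surf n)
      ≤ ∫⁻ e, (6 * 2 ^ (n + 1)) ^ p *
          kakeyaMax δ (U.indicator fun _ => (1 : ℝ)) (e : Eu n) ^ p ∂(surf n) :=
        lintegral_mono h3
    _ = (6 * 2 ^ (n + 1)) ^ p *
          ∫⁻ e, kakeyaMax δ (U.indicator fun _ => (1 : ℝ)) (e : Eu n) ^ p ∂(surf n) := by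
        rw [lintegral_const_mul' _ _ (by finiteness)]
    _ ≤ (6 * 2 ^ (n + 1)) ^ p * (T * volume U) := by gcongr
    _ ≤ (6 * 2 ^ (n + 1)) ^ p * (T * (C * (volume (A ∩ cube n 2) +
          ENNReal.ofReal (D * (2 * δ))))) := by gcongr
    _ ≤ (6 * 2 ^ (n + 1)) ^ p * (T * (C * (2 * (volume (A ∩ cube n 2) +
          ENNReal.ofReal (D * δ))))) := by
        gcongr
        have e1 : ENNReal.ofReal (D * (2 * δ)) = 2 * ENNReal.ofReal (D * δ) := by
          rw [← ENNReal.ofReal_ofNat 2, ← ENNReal.ofReal_mul (by norm_num)]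
          congr 1
          ring
        rw [e1, mul_add]
        gcongr
        nth_rewrite 1 [← one_mul (volume (A ∩ cube n 2))]
        gcongr
        norm_num
    _ = _ := by
        have e2 : (((6 * 2 ^ (n + 1)) ^ p * (2 * C) : ℝ≥0) : ℝ≥0∞) =
            (6 * 2 ^ (n + 1)) ^ p * (2 * C) := by
          rw [ENNReal.coe_mul, ENNReal.coe_rpow_of_nonneg _ hp0.le]
          push_cast
          rfl
        rw [e2]
        ring

/-- with a loss -/
theorem strong (hn : 1 ≤ n) {p : ℝ} (hp : 1 ≤ p) {ε : ℝ} (hε : 0 < ε) (hε1 : ε < 1)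
    (h : ∃ C : ℝ≥0, ∀ δ : ℝ, 0 < δ → δ < 1 →
      TubeBound n p δ (C * ENNReal.ofReal (δ ^ (-ε)))) :
    ∃ C : ℝ≥0, ∀ (D : ℕ), 1 ≤ D → ∀ A : Set (Eu n), SemiAlg n D A →
      ∫⁻ e, lmaxA A (e : Eu n) ^ p ∂(surf n) ≤
        C * ENNReal.ofReal ((D : ℝ) ^ ε) * volume (A ∩ cube n 2) ^ (1 - ε) := by
  obtain ⟨C₁, h1⟩ := h
  obtain ⟨C₂, h2⟩ := sa_of_tube (n := n) hn hp
  set W : ℝ := (volume (cube n 2)).toReal + 1 with hW
  have hW1 : 1 ≤ W := by rw [hW]; linarith [ENNReal.toReal_nonneg (a := volume (cube n 2))]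
  set K : ℝ := (2 * W) ^ ε * 2 with hK
  have hK0 : 0 < K := by positivity
  refine ⟨C₂ * C₁ * Real.toNNReal K, fun D hD A hA => ?_⟩
  have hD1 : (1 : ℝ) ≤ D := by exact_mod_cast hD
  have hD0 : (0 : ℝ) < D := by linarith
  have hVfin : volume (A ∩ cube n 2) ≠ ∞ :=
    ne_top_of_le_ne_top Pool.Agent.H222.KP.cube_fin (measure_mono inter_subset_right)
  have key : ∀ v : ℝ, 0 < v → v ≤ W → volume (A ∩ cube n 2) ≤ ENNReal.ofReal v →
      ∫⁻ e, lmaxA A (e : Eu n) ^ p ∂(surf n) ≤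
        C₂ * C₁ * ENNReal.ofReal (K * (D : ℝ) ^ ε * v ^ (1 - ε)) := by
    intro v hv hvW hV
    set δ : ℝ := v / (2 * W * D) with hδ
    have hδ0 : 0 < δ := by positivity
    have hDδ : D * δ = v / (2 * W) := by rw [hδ]; field_simp
    have hvW2 : v / (2 * W) ≤ 1 / 2 := by
      rw [div_le_div_iff₀ (by positivity) (by norm_num)]
      linarith
    have hδ2 : δ ≤ 1 / 2 := by
      have h3 : δ ≤ D * δ := le_mul_of_one_le_left hδ0.le hD1
      linarith
    have h4 := h2 D A hA δ hδ0 hδ2 (by rw [hDδ]; linarith) _ (h1 δ hδ0 (by linarith))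
    refine h4.trans ?_
    have h5 : volume (A ∩ cube n 2) + ENNReal.ofReal (D * δ) ≤ ENNReal.ofReal (2 * v) := by
      rw [two_mul v, ENNReal.ofReal_add hv.le hv.le]
      refine add_le_add hV (ENNReal.ofReal_le_ofReal ?_)
      rw [hDδ]
      exact div_le_self hv.le (by linarith)
    have h6 : δ ^ (-ε) * (2 * v) = K * (D : ℝ) ^ ε * v ^ (1 - ε) := by
      rw [hδ, Real.div_rpow hv.le (by positivity), Real.rpow_neg (by positivity : 0 ≤ 2 * W * D),
        div_inv_eq_mul, Real.mul_rpow (by positivity) hD0.le, hK]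
      have e1 : v ^ (1 - ε) = v ^ (-ε) * v := by
        rw [sub_eq_neg_add, Real.rpow_add hv, Real.rpow_one]
      rw [e1]
      ring
    calc (C₂ : ℝ≥0∞) * (C₁ * ENNReal.ofReal (δ ^ (-ε))) *
          (volume (A ∩ cube n 2) + ENNReal.ofReal (D * δ))
        ≤ C₂ * (C₁ * ENNReal.ofReal (δ ^ (-ε))) * ENNReal.ofReal (2 * v) := by gcongr
      _ = C₂ * C₁ * (ENNReal.ofReal (δ ^ (-ε)) * ENNReal.ofReal (2 * v)) := by ring
      _ = _ := by rw [← ENNReal.ofReal_mul (by positivity), h6]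
  rcases eq_or_ne (volume (A ∩ cube n 2)) 0 with h0 | h0
  · have h3 : ∫⁻ e, lmaxA A (e : Eu n) ^ p ∂(surf n) ≤ 0 := by
      have hlim : Tendsto (fun v : ℝ => C₂ * C₁ * ENNReal.ofReal (K * (D : ℝ) ^ ε * v ^ (1 - ε)))
          (𝓝[>] 0) (𝓝 (C₂ * C₁ * ENNReal.ofReal (K * (D : ℝ) ^ ε * (0 : ℝ) ^ (1 - ε)))) := by
        refine ENNReal.Tendsto.const_mul ?_ (Or.inr (by finiteness))
        refine ENNReal.tendsto_ofReal ?_
        refine Tendsto.const_mul _ ?_
        exact ((Real.continuousAt_rpow_const 0 (1 - ε) (Or.inr (by linarith))).tendsto).mono_left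
          nhdsWithin_le_nhds
      rw [Real.zero_rpow (by linarith), mul_zero, ENNReal.ofReal_zero, mul_zero] at hlim
      refine ge_of_tendsto hlim ?_
      filter_upwards [Ioo_mem_nhdsGT (show (0 : ℝ) < 1 by norm_num)] with v hv
      exact key v hv.1 (hv.2.le.trans hW1) (by rw [h0]; exact zero_le)
    exact h3.trans zero_le
  · set v : ℝ := (volume (A ∩ cube n 2)).toReal with hv
    have hv0 : 0 < v := ENNReal.toReal_pos h0 hVfin
    have hvW : v ≤ W := by
      have h3 : v ≤ (volume (cube n 2)).toReal :=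
        ENNReal.toReal_mono Pool.Agent.H222.KP.cube_fin (measure_mono inter_subset_right)
      linarith
    have hvv : ENNReal.ofReal v = volume (A ∩ cube n 2) := ENNReal.ofReal_toReal hVfin
    refine (key v hv0 hvW hvv.ge).trans (le_of_eq ?_)
    rw [ENNReal.ofReal_mul (by positivity), ENNReal.ofReal_mul hK0.le, ← hvv,
      ENNReal.ofReal_rpow_of_nonneg hv0.le (by linarith)]
    push_cast
    have e3 : ((Real.toNNReal K : ℝ≥0) : ℝ≥0∞) = ENNReal.ofReal K := rfl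
    rw [e3]
    ring

/-- dimension three, the range of Wolff -/
theorem three {p : ℝ} (hp2 : 2 < p) (hp : p < 5 / 2) : ∃ C : ℝ≥0, ∀ (D : ℕ), 1 ≤ D →
    ∀ A : Set (Eu 3), SemiAlg 3 D A → ∫⁻ e, lmaxA A (e : Eu 3) ^ p ∂(surf 3) ≤
      C * ENNReal.ofReal ((D : ℝ) ^ (3 - p)) * volume (A ∩ cube 3 2) ^ (p - 2) := by
  obtain ⟨C, hC, hW⟩ := Pool.Agent.Results.MP_5168f5_an.WolffRangeMaximal.result 3 (by norm_num) p _
    (by linarith) (by push_cast; linarith) rfl
  have h := strong (n := 3) (by norm_num) (p := p) (by linarith) (ε := 3 - p) (by linarith)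
    (by linarith) ⟨Real.toNNReal C, fun δ hδ hδ1 f hf => by
      have h2 := (hW δ hδ hδ1 f hf.1.aemeasurable).1
      have e1 : ((3 : ℕ) : ℝ) - p = 3 - p := by push_cast; ring
      rw [e1, ENNReal.ofReal_mul hC.le] at h2
      exact h2⟩
  obtain ⟨C', h'⟩ := h
  refine ⟨C', fun D hD A hA => ?_⟩
  have h3 := h' D hD A hA
  rw [show 1 - (3 - p) = p - 2 by ring] at h3
  exact h3

end Pool.Agent.H222.SK
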