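import Mathlib

/-!
Subtask SK-E (owner helper222).  The number of grid boxes which meet both `{P > 0}` and `{P ≤ 0}`.
The hypotheses of the theorem are lemmas proved elsewhere.
-/

open Set MvPolynomial

namespace Pool.Agent.H222.SK.EE

/-- the closed box with index `k` of the grid of step `h` -/
def box {n : ℕ} (h : ℝ) (k : Fin n → ℤ) : Set (Fin n → ℝ) :=
  {x | ∀ i, (k i : ℝ) * h ≤ x i ∧ x i ≤ ((k i : ℝ) + 1) * h}

/-- the open box -/
def obox {n : ℕ} (h : ℝ) (k : Fin n → ℤ) : Set (Fin n → ℝ) :=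
  {x | ∀ i, (k i : ℝ) * h < x i ∧ x i < ((k i : ℝ) + 1) * h}

open Finset in
theorem base_case
    (one_dim : ∀ (p : Polynomial ℝ) (D : ℕ), p.natDegree ≤ D → ∀ h : ℝ, 0 < h → ∀ s : Finset ℤ,
      (∀ k ∈ s, (∃ x ∈ Set.Icc ((k : ℝ) * h) (((k : ℝ) + 1) * h), 0 < p.eval x) ∧
        ∃ x ∈ Set.Icc ((k : ℝ) * h) (((k : ℝ) + 1) * h), p.eval x ≤ 0) → s.card ≤ 2 * D)
    (to_poly : ∀ P : MvPolynomial (Fin 1) ℝ,
      ∃ p : Polynomial ℝ, p.natDegree ≤ P.totalDegree ∧ ∀ t : ℝ, p.eval t = eval (fun _ => t) P)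
    (D m : ℕ) (h : ℝ) (hh : 0 < h) (P : MvPolynomial (Fin 1) ℝ) (hP : P.totalDegree ≤ D)
    (s : Finset (Fin 1 → ℤ))
    (hs : ∀ k ∈ s, (∀ i, -(m : ℤ) ≤ k i ∧ k i < m) ∧ (∃ x ∈ box h k, 0 < eval x P) ∧
        ∃ x ∈ box h k, eval x P ≤ 0) : s.card ≤ 2 * D := by
  classical
  obtain ⟨p, hp1, hp2⟩ := to_poly P
  have hinj : Set.InjOn (fun k : Fin 1 → ℤ => k 0) (s : Set (Fin 1 → ℤ)) := by
    intro k _ l _ hkl
    funext i
    rw [Subsingleton.elim i 0]
    exact hkl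
  rw [← card_image_of_injOn hinj]
  have hx : ∀ x : Fin 1 → ℝ, p.eval (x 0) = eval x P := by
    intro x
    rw [hp2]
    congr 1
    have : (fun _ : Fin 1 => x 0) = x := by
      funext i
      rw [Subsingleton.elim i 0]
    rw [this]
  refine one_dim p D (hp1.trans hP) h hh _ ?_
  intro k hk
  obtain ⟨k', hk', rfl⟩ := mem_image.1 hk
  obtain ⟨-, ⟨x, hx1, hx2⟩, y, hy1, hy2⟩ := hs k' hk'
  refine ⟨⟨x 0, hx1 0, ?_⟩, y 0, hy1 0, ?_⟩
  · rw [hx]
    exact hx2
  · rw [hx]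
    exact hy2

theorem removeNth_mem {n : ℕ} {h : ℝ} {k : Fin (n + 1) → ℤ} {x : Fin (n + 1) → ℝ}
    (hx : x ∈ box h k) (i : Fin (n + 1)) : i.removeNth x ∈ box h (i.removeNth k) :=
  fun j => hx (i.succAbove j)

theorem insertNth_eq {n : ℕ} {x : Fin (n + 1) → ℝ} {i : Fin (n + 1)} {c : ℝ} (hc : x i = c) :
    (i.insertNth c (i.removeNth x) : Fin (n + 1) → ℝ) = x := by
  rw [← hc]
  exact Fin.insertNth_self_removeNth i x

/-- Paper proof (induction on the dimension `n + 1`, constants `C (n+1)`).  Case `D = 0`: `P` is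
constant and `s = ∅`; so let `1 ≤ D ≤ m`.

Dimension one: `to_poly` and `one_dim` (the box with index `k` is `[k 0 h, (k 0 + 1) h]`): `C = 2`.

From `n + 1` to `n + 2`: let `A = {P > 0}`.  For `k ∈ s` either (a) for some `i` and some
`l ∈ {k i, k i + 1}` the facet `{x ∈ box h k, x i = l h}` meets `A` and `Aᶜ`, or (b) by `faces` the
boundary `box \ obox` is contained in `A`, or (c) in `Aᶜ`.  The `k` of case (b) are at most
`(2 D + 1) ^ (n + 2)` in number by `crit_pos` with `U = obox h k`, `K = box h k` (the box meets `Aᶜ`,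
necessarily in `obox`), those of case (c) by `crit_neg`.  In case (a) the index
`k' = k ∘ i.succAbove` is in the finite set `F i l` of all indices in `[-m, m)^(n+1)` whose box of
dimension `n + 1` is mixed for `Q = restr P i (l h)` (`x = i.insertNth (l h) y`), which has at most
`C D m^n` elements by the induction hypothesis; `-m ≤ l ≤ m`; and `k` is determined by
`(i, l, l - k i, k')`, so there are at most `(n + 2) (2 m + 1) 2 (C D m^n) ≤ 6 (n + 2) C D m^(n+1)` of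
them.  Finally `(2 D + 1)^(n+2) ≤ (3 D)^(n+2) ≤ 3^(n+2) D m^(n+1)`. -/
theorem grid_count
    (crit_pos : ∀ (n D : ℕ) (P : MvPolynomial (Fin n) ℝ), P.totalDegree ≤ D →
      ∀ (s : Finset (Fin n → ℤ)) (U K : (Fin n → ℤ) → Set (Fin n → ℝ)), (∀ j ∈ s, IsOpen (U j)) →
      (∀ j ∈ s, IsCompact (K j)) → (∀ j ∈ s, U j ⊆ K j) →
      (∀ i ∈ s, ∀ j ∈ s, i ≠ j → Disjoint (U i) (U j)) →
      (∀ j ∈ s, ∀ x ∈ K j \ U j, 0 < eval x P) → (∀ j ∈ s, ∃ y ∈ U j, eval y P ≤ 0) →
      s.card ≤ (2 * D + 1) ^ n)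
    (crit_neg : ∀ (n D : ℕ) (P : MvPolynomial (Fin n) ℝ), P.totalDegree ≤ D →
      ∀ (s : Finset (Fin n → ℤ)) (U K : (Fin n → ℤ) → Set (Fin n → ℝ)), (∀ j ∈ s, IsOpen (U j)) →
      (∀ j ∈ s, IsCompact (K j)) → (∀ j ∈ s, U j ⊆ K j) →
      (∀ i ∈ s, ∀ j ∈ s, i ≠ j → Disjoint (U i) (U j)) →
      (∀ j ∈ s, ∀ x ∈ K j \ U j, eval x P ≤ 0) → (∀ j ∈ s, ∃ y ∈ U j, 0 < eval y P) →
      s.card ≤ (2 * D + 1) ^ n)
    (one_dim : ∀ (p : Polynomial ℝ) (D : ℕ), p.natDegree ≤ D → ∀ h : ℝ, 0 < h → ∀ s : Finset ℤ,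
      (∀ k ∈ s, (∃ x ∈ Icc ((k : ℝ) * h) (((k : ℝ) + 1) * h), 0 < p.eval x) ∧
        ∃ x ∈ Icc ((k : ℝ) * h) (((k : ℝ) + 1) * h), p.eval x ≤ 0) → s.card ≤ 2 * D)
    (restr : ∀ (n : ℕ) (P : MvPolynomial (Fin (n + 1)) ℝ) (i : Fin (n + 1)) (c : ℝ),
      ∃ Q : MvPolynomial (Fin n) ℝ, Q.totalDegree ≤ P.totalDegree ∧
        ∀ y : Fin n → ℝ, eval y Q = eval (i.insertNth c y : Fin (n + 1) → ℝ) P)
    (to_poly : ∀ P : MvPolynomial (Fin 1) ℝ,
      ∃ p : Polynomial ℝ, p.natDegree ≤ P.totalDegree ∧ ∀ t : ℝ, p.eval t = eval (fun _ => t) P)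
    (box_compact : ∀ (n : ℕ) (h : ℝ) (k : Fin n → ℤ), IsCompact (box h k))
    (obox_open : ∀ (n : ℕ) (h : ℝ) (k : Fin n → ℤ), IsOpen (obox h k))
    (obox_disj : ∀ (n : ℕ) (h : ℝ), 0 < h → ∀ k l : Fin n → ℤ, k ≠ l →
      Disjoint (obox h k) (obox h l))
    (faces : ∀ (n : ℕ) (h : ℝ), 0 < h → ∀ (k : Fin (n + 2) → ℤ) (A : Set (Fin (n + 2) → ℝ)),
      (∀ (i : Fin (n + 2)) (l : ℤ), (l = k i ∨ l = k i + 1) →
        ({x | x ∈ box h k ∧ x i = l * h} ⊆ A ∨ {x | x ∈ box h k ∧ x i = l * h} ⊆ Aᶜ)) →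
      box h k \ obox h k ⊆ A ∨ box h k \ obox h k ⊆ Aᶜ)
    (n : ℕ) : ∃ C : ℕ, ∀ (D m : ℕ), 1 ≤ m → D ≤ m → ∀ h : ℝ, 0 < h →
      ∀ P : MvPolynomial (Fin (n + 1)) ℝ, P.totalDegree ≤ D → ∀ s : Finset (Fin (n + 1) → ℤ),
      (∀ k ∈ s, (∀ i, -(m : ℤ) ≤ k i ∧ k i < m) ∧ (∃ x ∈ box h k, 0 < eval x P) ∧
        ∃ x ∈ box h k, eval x P ≤ 0) → s.card ≤ C * D * m ^ n := by
  classical
  induction n with
  | zero =>
    refine ⟨2, fun D m _ _ h hh P hP s hs => ?_⟩
    rw [pow_zero, mul_one]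
    exact base_case one_dim to_poly D m h hh P hP s hs
  | succ n ih =>
    obtain ⟨C, ih⟩ := ih
    refine ⟨6 * (n + 2) * C + 2 * 3 ^ (n + 2), fun D m hm hDm h hh P hP s hs => ?_⟩
    rcases Nat.eq_zero_or_pos D with hD | hD
    · have h0 : P.totalDegree = 0 := by omega
      have hP0 : P = MvPolynomial.C (coeff 0 P) := totalDegree_eq_zero_iff_eq_C.1 h0
      have hse : s = ∅ := by
        refine Finset.eq_empty_of_forall_notMem fun k hk => ?_
        obtain ⟨-, ⟨x, -, hx⟩, y, -, hy⟩ := hs k hk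
        rw [hP0, eval_C] at hx hy
        exact absurd hx (not_lt.2 hy)
      rw [hse, Finset.card_empty]
      exact Nat.zero_le _
    set A : Set (Fin (n + 2) → ℝ) := {x | 0 < eval x P} with hA
    set sa : Finset (Fin (n + 2) → ℤ) := s.filter fun k => ∃ (i : Fin (n + 2)) (l : ℤ),
      (l = k i ∨ l = k i + 1) ∧ (∃ x ∈ box h k, x i = l * h ∧ 0 < eval x P) ∧
        ∃ x ∈ box h k, x i = l * h ∧ eval x P ≤ 0 with hsa
    set sb : Finset (Fin (n + 2) → ℤ) := s.filter fun k => box h k \ obox h k ⊆ A with hsb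
    set sc : Finset (Fin (n + 2) → ℤ) := s.filter fun k => box h k \ obox h k ⊆ Aᶜ with hsc
    have hcov : s ⊆ (sa ∪ sb) ∪ sc := by
      intro k hk
      by_cases h1 : k ∈ sa
      · exact Finset.mem_union_left _ (Finset.mem_union_left _ h1)
      · have h2 := faces n h hh k A (by
          intro i l hl
          by_contra h3
          rw [not_or] at h3
          apply h1
          rw [hsa, Finset.mem_filter]
          refine ⟨hk, i, l, hl, ?_, ?_⟩
          · obtain ⟨x, hx1, hx2⟩ := Set.not_subset.1 h3.2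
            exact ⟨x, hx1.1, hx1.2, not_not.1 hx2⟩
          · obtain ⟨x, hx1, hx2⟩ := Set.not_subset.1 h3.1
            exact ⟨x, hx1.1, hx1.2, not_lt.1 hx2⟩)
        rcases h2 with h2 | h2
        · exact Finset.mem_union_left _ (Finset.mem_union_right _ (Finset.mem_filter.2 ⟨hk, h2⟩))
        · exact Finset.mem_union_right _ (Finset.mem_filter.2 ⟨hk, h2⟩)
    have hsub : ∀ k : Fin (n + 2) → ℤ, obox h k ⊆ box h k :=
      fun k x hx i => ⟨(hx i).1.le, (hx i).2.le⟩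
    have cb : sb.card ≤ (2 * D + 1) ^ (n + 2) := by
      refine crit_pos (n + 2) D P hP sb (fun k => obox h k) (fun k => box h k)
        (fun j _ => obox_open _ _ _) (fun j _ => box_compact _ _ _) (fun j _ => hsub j)
        (fun i _ j _ hij => obox_disj _ h hh i j hij) ?_ ?_
      · intro j hj x hx
        exact (Finset.mem_filter.1 hj).2 hx
      · intro j hj
        obtain ⟨hj1, hj2⟩ := Finset.mem_filter.1 hj
        obtain ⟨-, -, y, hy1, hy2⟩ := hs j hj1
        refine ⟨y, ?_, hy2⟩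
        by_contra hy3
        exact absurd (hj2 ⟨hy1, hy3⟩ : 0 < eval y P) (not_lt.2 hy2)
    have cc : sc.card ≤ (2 * D + 1) ^ (n + 2) := by
      refine crit_neg (n + 2) D P hP sc (fun k => obox h k) (fun k => box h k)
        (fun j _ => obox_open _ _ _) (fun j _ => box_compact _ _ _) (fun j _ => hsub j)
        (fun i _ j _ hij => obox_disj _ h hh i j hij) ?_ ?_
      · intro j hj x hx
        exact not_lt.1 ((Finset.mem_filter.1 hj).2 hx)
      · intro j hj
        obtain ⟨hj1, hj2⟩ := Finset.mem_filter.1 hj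
        obtain ⟨-, ⟨y, hy1, hy2⟩, -⟩ := hs j hj1
        refine ⟨y, ?_, hy2⟩
        by_contra hy3
        exact (hj2 ⟨hy1, hy3⟩) hy2
    choose Q hQ1 hQ2 using fun (i : Fin (n + 2)) (l : ℤ) => restr (n + 1) P i ((l : ℝ) * h)
    set F : Fin (n + 2) → ℤ → Finset (Fin (n + 1) → ℤ) := fun i l =>
      (Fintype.piFinset fun _ : Fin (n + 1) => Finset.Ico (-(m : ℤ)) m).filter fun k =>
        (∃ x ∈ box h k, 0 < eval x (Q i l)) ∧ ∃ x ∈ box h k, eval x (Q i l) ≤ 0 with hF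
    have hFc : ∀ i l, (F i l).card ≤ C * D * m ^ n := by
      intro i l
      refine ih D m hm hDm h hh (Q i l) ((hQ1 i l).trans hP) (F i l) fun k hk => ?_
      obtain ⟨h1, h2⟩ := Finset.mem_filter.1 hk
      refine ⟨fun j => ?_, h2⟩
      exact Finset.mem_Ico.1 (Fintype.mem_piFinset.1 h1 j)
    have ca : sa.card ≤ (n + 2) * (2 * m + 1) * 2 * (C * D * m ^ n) := by
      set I : Finset (Fin (n + 2) × ℤ × ℤ) :=
        Finset.univ ×ˢ (Finset.Icc (-(m : ℤ)) m ×ˢ ({0, 1} : Finset ℤ)) with hI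
      have hIc : I.card = (n + 2) * (2 * m + 1) * 2 := by
        rw [hI, Finset.card_product, Finset.card_product, Finset.card_univ, Fintype.card_fin,
          Int.card_Icc, Finset.card_pair (by norm_num)]
        have : ((m : ℤ) + 1 - -(m : ℤ)).toNat = 2 * m + 1 := by omega
        rw [this]
        ring
      have hsub2 : sa ⊆ I.biUnion fun q => (F q.1 q.2.1).image fun k' =>
          (q.1.insertNth (q.2.1 - q.2.2) k' : Fin (n + 2) → ℤ) := by
        intro k hk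
        obtain ⟨hk1, i, l, hl, ⟨x, hx1, hx2, hx3⟩, y, hy1, hy2, hy3⟩ := Finset.mem_filter.1 hk
        have hr := (hs k hk1).1
        rw [Finset.mem_biUnion]
        refine ⟨(i, l, l - k i), ?_, ?_⟩
        · rw [hI]
          simp only [Finset.mem_product, Finset.mem_univ, true_and, Finset.mem_Icc,
            Finset.mem_insert, Finset.mem_singleton]
          have := hr i
          omega
        · rw [Finset.mem_image]
          refine ⟨i.removeNth k, ?_, ?_⟩
          · rw [hF]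
            simp only [Finset.mem_filter, Fintype.mem_piFinset, Finset.mem_Ico]
            refine ⟨fun j => hr (i.succAbove j), ⟨i.removeNth x, removeNth_mem hx1 i, ?_⟩,
              i.removeNth y, removeNth_mem hy1 i, ?_⟩
            · rw [hQ2, insertNth_eq hx2]
              exact hx3
            · rw [hQ2, insertNth_eq hy2]
              exact hy3
          · simp only [sub_sub_cancel]
            exact Fin.insertNth_self_removeNth i k
      refine (Finset.card_le_card hsub2).trans (Finset.card_biUnion_le.trans ?_)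
      calc ∑ q ∈ I, ((F q.1 q.2.1).image fun k' =>
            (q.1.insertNth (q.2.1 - q.2.2) k' : Fin (n + 2) → ℤ)).card
          ≤ ∑ _q ∈ I, C * D * m ^ n :=
            Finset.sum_le_sum fun q _ => Finset.card_image_le.trans (hFc _ _)
        _ = _ := by rw [Finset.sum_const, hIc, smul_eq_mul]
    have hc : s.card ≤ sa.card + sb.card + sc.card :=
      (Finset.card_le_card hcov).trans ((Finset.card_union_le _ _).trans
        (Nat.add_le_add_right (Finset.card_union_le _ _) _))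
    have hb : (2 * D + 1) ^ (n + 2) ≤ 3 ^ (n + 2) * D * m ^ (n + 1) := by
      calc (2 * D + 1) ^ (n + 2) ≤ (3 * D) ^ (n + 2) := Nat.pow_le_pow_left (by omega) _
        _ = 3 ^ (n + 2) * D * D ^ (n + 1) := by ring
        _ ≤ _ := Nat.mul_le_mul_left _ (Nat.pow_le_pow_left hDm _)
    have ha : (n + 2) * (2 * m + 1) * 2 * (C * D * m ^ n) ≤ 6 * (n + 2) * C * D * m ^ (n + 1) := by
      calc (n + 2) * (2 * m + 1) * 2 * (C * D * m ^ n)
          ≤ (n + 2) * (3 * m) * 2 * (C * D * m ^ n) :=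
            Nat.mul_le_mul_right _ (Nat.mul_le_mul_right _ (Nat.mul_le_mul_left _ (by omega)))
        _ = _ := by ring
    calc s.card ≤ 6 * (n + 2) * C * D * m ^ (n + 1) + 3 ^ (n + 2) * D * m ^ (n + 1)
          + 3 ^ (n + 2) * D * m ^ (n + 1) := by omega
      _ = _ := by ring

end Pool.Agent.H222.SK.EE
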