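import Mathlib

/-!
Subtask SK-G (owner helper222).  The volume of a neighbourhood from the number of mixed boxes.
-/

open MeasureTheory Set Metric
open scoped ENNReal NNReal Topology

namespace Pool.Agent.H222.SK

theorem skg_vol (n : ℕ) (s : Set (Fin n → ℝ)) (hs : MeasurableSet s) :
    volume {x : EuclideanSpace ℝ (Fin n) | (fun i => x i) ∈ s} = volume s :=
  (EuclideanSpace.volume_preserving_symm_measurableEquiv_toLp (Fin n)).measure_preimage hs.nullMeasurableSet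

theorem skg_closed (n : ℕ) (a : Fin n → ℝ) (l : ℝ) :
    volume {x : EuclideanSpace ℝ (Fin n) | ∀ i, a i ≤ x i ∧ x i ≤ a i + l} = ENNReal.ofReal l ^ n := by
  have h1 : {x : EuclideanSpace ℝ (Fin n) | ∀ i, a i ≤ x i ∧ x i ≤ a i + l} =
      {x : EuclideanSpace ℝ (Fin n) | (fun i => x i) ∈ Set.Icc a (fun i => a i + l)} := by
    ext x
    simp only [Set.mem_ofPred_eq, Set.mem_Icc, Pi.le_def]
    exact ⟨fun h => ⟨fun i => (h i).1, fun i => (h i).2⟩, fun h i => ⟨h.1 i, h.2 i⟩⟩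
  rw [h1, skg_vol n _ measurableSet_Icc, Real.volume_Icc_pi]
  have h2 : ∀ i : Fin n, ENNReal.ofReal (a i + l - a i) = ENNReal.ofReal l := fun i => by
    rw [add_sub_cancel_left]
  rw [Finset.prod_congr rfl fun i _ => h2 i, Finset.prod_const, Finset.card_univ, Fintype.card_fin]

theorem skg_half (n : ℕ) (a : Fin n → ℝ) (l : ℝ) :
    MeasurableSet {x : EuclideanSpace ℝ (Fin n) | ∀ i, a i ≤ x i ∧ x i < a i + l} ∧
    volume {x : EuclideanSpace ℝ (Fin n) | ∀ i, a i ≤ x i ∧ x i < a i + l} = ENNReal.ofReal l ^ n := by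
  have hm : MeasurableSet (Set.pi Set.univ fun i => Set.Ico (a i) (a i + l)) :=
    MeasurableSet.univ_pi fun i => measurableSet_Ico
  have h1 : {x : EuclideanSpace ℝ (Fin n) | ∀ i, a i ≤ x i ∧ x i < a i + l} =
      {x : EuclideanSpace ℝ (Fin n) | (fun i => x i) ∈ Set.pi Set.univ fun i => Set.Ico (a i) (a i + l)} := by
    ext x
    simp only [Set.mem_ofPred_eq, Set.mem_pi, Set.mem_univ, true_imp_iff, Set.mem_Ico]
  rw [h1]
  constructor
  · exact (EuclideanSpace.volume_preserving_symm_measurableEquiv_toLp (Fin n)).measurable hm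
  · rw [skg_vol n _ hm, Real.volume_pi_Ico]
    have h2 : ∀ i : Fin n, ENNReal.ofReal (a i + l - a i) = ENNReal.ofReal l := fun i => by
      rw [add_sub_cancel_left]
    rw [Finset.prod_congr rfl fun i _ => h2 i, Finset.prod_const, Finset.card_univ, Fintype.card_fin]

/-- Paper proof (`C = 3^n`). Let `S` be the finite set of all indices `k` with `-m ≤ k i < m` whose
closed box `Q k = {x | ∀ i, k i h ≤ x i ≤ (k i + 1) h}` contains a point `y ∈ A` with `|y i| ≤ 1`.  If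
`‖x - y‖ ≤ h`, `y ∈ A`, `|y i| ≤ 1`, let `k i = ⌊y i / h⌋`: then `k ∈ S` (`2 / h ≤ m`, `h ≤ 1`) and `x`
is in the union of the `3^n` boxes `Q (k + j)`, `j ∈ {-1, 0, 1}^n` (or: in the box
`{x | ∀ i, (k i - 1) h ≤ x i ≤ (k i + 2) h}` of volume `3^n h^n`).  So the volume is at most
`3^n h^n |S|`.  The indices in `S` whose box is contained in `A`: their half open boxes
`{x | ∀ i, k i h ≤ x i < (k i + 1) h}` (volume `h^n`) are pairwise disjoint and contained in
`A ∩ {|x i| ≤ 2}`, hence `h^n` times their number is at most `volume (A ∩ {|x i| ≤ 2})`.  The other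
indices of `S` are at most `N` in number by hypothesis. -/
theorem nbhd (n : ℕ) : ∃ C : ℝ≥0, ∀ (A : Set (EuclideanSpace ℝ (Fin n))), MeasurableSet A →
    ∀ h : ℝ, 0 < h → h ≤ 1 → ∀ m N : ℕ, 2 / h ≤ m →
    (∀ s : Finset (Fin n → ℤ), (∀ k ∈ s, (∀ i, -(m : ℤ) ≤ k i ∧ k i < m) ∧
      (∃ x ∈ A, ∀ i, (k i : ℝ) * h ≤ x i ∧ x i ≤ ((k i : ℝ) + 1) * h) ∧
      (∃ x, x ∉ A ∧ ∀ i, (k i : ℝ) * h ≤ x i ∧ x i ≤ ((k i : ℝ) + 1) * h)) → s.card ≤ N) →
    volume {x : EuclideanSpace ℝ (Fin n) | ∃ y ∈ A, (∀ i, |y i| ≤ 1) ∧ ‖x - y‖ ≤ h} ≤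
      C * (volume (A ∩ {x | ∀ i, |x i| ≤ 2}) + N * ENNReal.ofReal (h ^ n)) := by
  classical
  refine ⟨3 ^ n, ?_⟩
  intro A hA h h0 h1 m N hm hN
  set Q : (Fin n → ℤ) → Set (EuclideanSpace ℝ (Fin n)) :=
    fun k => {x | ∀ i, (k i : ℝ) * h ≤ x i ∧ x i ≤ ((k i : ℝ) + 1) * h} with hQ
  set S : Finset (Fin n → ℤ) := (Fintype.piFinset fun _ : Fin n => Finset.Ico (-(m : ℤ)) m).filter
    (fun k => ∃ x ∈ A, (∀ i, |x i| ≤ 1) ∧ x ∈ Q k) with hS
  set S1 := S.filter (fun k => Q k ⊆ A) with hS1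
  set S2 := S.filter (fun k => ¬ Q k ⊆ A) with hS2
  have hcard : S.card = S1.card + S2.card := (Finset.card_filter_add_card_filter_not _).symm
  -- mixed boxes
  have hS2c : S2.card ≤ N := by
    apply hN
    intro k hk
    obtain ⟨hk1, hk2⟩ := Finset.mem_filter.1 hk
    obtain ⟨hk3, x, hxA, _, hxQ⟩ := Finset.mem_filter.1 hk1
    rw [Fintype.mem_piFinset] at hk3
    refine ⟨fun i => Finset.mem_Ico.1 (hk3 i), ⟨x, hxA, hxQ⟩, ?_⟩
    rw [Set.not_subset] at hk2
    obtain ⟨z, hz, hzA⟩ := hk2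
    exact ⟨z, hzA, hz⟩
  -- full boxes
  set R : (Fin n → ℤ) → Set (EuclideanSpace ℝ (Fin n)) :=
    fun k => {x | ∀ i, (k i : ℝ) * h ≤ x i ∧ x i < (k i : ℝ) * h + h} with hR
  have hRm : ∀ k, MeasurableSet (R k) := fun k => (skg_half n (fun i => (k i : ℝ) * h) h).1
  have hRv : ∀ k, volume (R k) = ENNReal.ofReal (h ^ n) := fun k => by
    rw [ENNReal.ofReal_pow h0.le]
    exact (skg_half n (fun i => (k i : ℝ) * h) h).2
  have hRd : ∀ k ∈ (S1 : Set (Fin n → ℤ)), ∀ k' ∈ (S1 : Set (Fin n → ℤ)), k ≠ k' → Disjoint (R k) (R k') := by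
    intro k _ k' _ hkk
    rw [Set.disjoint_left]
    intro x hx hx'
    apply hkk
    funext i
    have e1 := hx i
    have e2 := hx' i
    have e3 : (k i : ℝ) < k' i + 1 := by nlinarith
    have e4 : (k' i : ℝ) < k i + 1 := by nlinarith
    have e5 : k i < k' i + 1 := by exact_mod_cast e3
    have e6 : k' i < k i + 1 := by exact_mod_cast e4
    omega
  have hfull : (S1.card : ℝ≥0∞) * ENNReal.ofReal (h ^ n) ≤ volume (A ∩ {x | ∀ i, |x i| ≤ 2}) := by
    have e1 : volume (⋃ k ∈ S1, R k) = ∑ k ∈ S1, volume (R k) :=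
      measure_biUnion_finset (fun k hk k' hk' hkk => hRd k hk k' hk' hkk) fun k _ => hRm k
    have e2 : ∑ k ∈ S1, volume (R k) = (S1.card : ℝ≥0∞) * ENNReal.ofReal (h ^ n) := by
      rw [Finset.sum_congr rfl fun k _ => hRv k, Finset.sum_const, nsmul_eq_mul]
    rw [← e2, ← e1]
    apply measure_mono
    intro x hx
    rw [Set.mem_iUnion₂] at hx
    obtain ⟨k, hk, hxR⟩ := hx
    obtain ⟨hk1, hk2⟩ := Finset.mem_filter.1 hk
    obtain ⟨_, y, _, hy1, hyQ⟩ := Finset.mem_filter.1 hk1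
    have hxQ : x ∈ Q k := fun i => ⟨(hxR i).1, by
      have := (hxR i).2
      nlinarith⟩
    refine ⟨hk2 hxQ, fun i => ?_⟩
    have e3 := hxQ i
    have e4 := hyQ i
    have e5 := abs_le.1 (hy1 i)
    rw [abs_le]
    constructor <;> nlinarith
  -- cover
  set P : (Fin n → ℤ) → Set (EuclideanSpace ℝ (Fin n)) :=
    fun k => {x | ∀ i, ((k i : ℝ) - 1) * h ≤ x i ∧ x i ≤ ((k i : ℝ) - 1) * h + 3 * h} with hP
  have hPv : ∀ k, volume (P k) = 3 ^ n * ENNReal.ofReal (h ^ n) := fun k => by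
    have e1 := skg_closed n (fun i => ((k i : ℝ) - 1) * h) (3 * h)
    rw [ENNReal.ofReal_mul (by norm_num), mul_pow, ← ENNReal.ofReal_pow h0.le] at e1
    have e2 : ENNReal.ofReal 3 = 3 := by
      rw [ENNReal.ofReal_ofNat]
    rw [e2] at e1
    exact e1
  have hcov : {x : EuclideanSpace ℝ (Fin n) | ∃ y ∈ A, (∀ i, |y i| ≤ 1) ∧ ‖x - y‖ ≤ h} ⊆
      ⋃ k ∈ S, P k := by
    rintro x ⟨y, hyA, hy1, hxy⟩
    have hfl : ∀ i, (⌊y i / h⌋ : ℝ) * h ≤ y i ∧ y i < ((⌊y i / h⌋ : ℝ) + 1) * h := by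
      intro i
      have e1 := Int.floor_le (y i / h)
      have e2 := Int.lt_floor_add_one (y i / h)
      rw [le_div_iff₀ h0] at e1
      rw [div_lt_iff₀ h0] at e2
      exact ⟨e1, e2⟩
    rw [Set.mem_iUnion₂]
    refine ⟨fun i => ⌊y i / h⌋, ?_, ?_⟩
    · refine Finset.mem_filter.2 ⟨?_, y, hyA, hy1, fun i => ⟨(hfl i).1, (hfl i).2.le⟩⟩
      rw [Fintype.mem_piFinset]
      intro i
      rw [Finset.mem_Ico]
      have e1 := abs_le.1 (hy1 i)
      have e3 : (1 : ℝ) / h ≤ m := by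
        have : (1 : ℝ) / h ≤ 2 / h := by
          apply div_le_div_of_nonneg_right (by norm_num) h0.le
        linarith
      have hh : 0 < 1 / h := by positivity
      have e4 : (2 : ℝ) / h = 2 * (1 / h) := by ring
      constructor
      · apply Int.le_floor.2
        have e5 : -(1 / h) ≤ y i / h := by
          rw [neg_div', div_le_div_iff_of_pos_right h0]
          exact e1.1
        push_cast
        linarith
      · apply Int.floor_lt.2
        have e5 : y i / h ≤ 1 / h := by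
          rw [div_le_div_iff_of_pos_right h0]
          exact e1.2
        push_cast
        linarith
    · intro i
      have e1 : |x i - y i| ≤ h := by
        have e2 : ‖(x - y) i‖ ≤ ‖x - y‖ := PiLp.norm_apply_le (x - y) i
        rw [Real.norm_eq_abs] at e2
        exact e2.trans hxy
      have e2 := abs_le.1 e1
      have e3 := hfl i
      show ((⌊y i / h⌋ : ℝ) - 1) * h ≤ x i ∧ x i ≤ ((⌊y i / h⌋ : ℝ) - 1) * h + 3 * h
      constructor <;> nlinarith
  calc volume {x : EuclideanSpace ℝ (Fin n) | ∃ y ∈ A, (∀ i, |y i| ≤ 1) ∧ ‖x - y‖ ≤ h}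
      ≤ volume (⋃ k ∈ S, P k) := measure_mono hcov
    _ ≤ ∑ k ∈ S, volume (P k) := measure_biUnion_finset_le _ _
    _ = (S.card : ℝ≥0∞) * (3 ^ n * ENNReal.ofReal (h ^ n)) := by
        rw [Finset.sum_congr rfl fun k _ => hPv k, Finset.sum_const, nsmul_eq_mul]
    _ = 3 ^ n * ((S1.card : ℝ≥0∞) * ENNReal.ofReal (h ^ n) + (S2.card : ℝ≥0∞) * ENNReal.ofReal (h ^ n)) := by
        rw [hcard]
        push_cast
        ring
    _ ≤ 3 ^ n * (volume (A ∩ {x | ∀ i, |x i| ≤ 2}) + N * ENNReal.ofReal (h ^ n)) := by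
        gcongr
    _ = ((3 ^ n : ℝ≥0) : ℝ≥0∞) * (volume (A ∩ {x | ∀ i, |x i| ≤ 2}) + N * ENNReal.ofReal (h ^ n)) := by
        push_cast
        rfl

end Pool.Agent.H222.SK
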