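import Pool.Agent.H222.SK.CritPos
import Pool.Agent.H222.SK.CritNeg
import Pool.Agent.H222.SK.Dim
import Pool.Agent.H222.SK.Faces
import Pool.Agent.H222.SK.Grid
import Pool.Agent.H222.SK.Nbhd

/-!
The volume of the neighbourhood of a semialgebraic set.
-/

open MeasureTheory Set Metric
open scoped ENNReal NNReal Topology

namespace Pool.Agent.H222.SK

/-- the number of mixed boxes of one polynomial -/
theorem grid (n : ℕ) : ∃ C : ℕ, ∀ (D m : ℕ), 1 ≤ m → D ≤ m → ∀ h : ℝ, 0 < h →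
      ∀ P : MvPolynomial (Fin (n + 1)) ℝ, P.totalDegree ≤ D → ∀ s : Finset (Fin (n + 1) → ℤ),
      (∀ k ∈ s, (∀ i, -(m : ℤ) ≤ k i ∧ k i < m) ∧ (∃ x ∈ box h k, 0 < MvPolynomial.eval x P) ∧
        ∃ x ∈ box h k, MvPolynomial.eval x P ≤ 0) → s.card ≤ C * D * m ^ n :=
  EE.grid_count
    (fun n D P hP s U K h1 h2 h3 h4 h5 h6 => crit_pos D P hP s U K h1 h2 h3 h4 h5 h6)
    (fun n D P hP s U K h1 h2 h3 h4 h5 h6 => crit_neg D P hP s U K h1 h2 h3 h4 h5 h6)
    (fun p D hp h hh s hs => one_dim p D hp hh s hs)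
    restr to_poly
    (fun n h k => box_compact h k) (fun n h k => obox_open h k)
    (fun n h hh k l hkl => obox_disj hh hkl)
    (fun n h hh k A hA => faces hh k A hA) n

/-- membership in `A` depends only on the signs of finitely many polynomials whose degrees have the sum
at most `D` -/
def SemiAlg (n D : ℕ) (A : Set (EuclideanSpace ℝ (Fin n))) : Prop :=
  ∃ (N : ℕ) (P : Fin N → MvPolynomial (Fin n) ℝ), ∑ j, (P j).totalDegree ≤ D ∧
    ∀ x y : EuclideanSpace ℝ (Fin n),
      (∀ j, SignType.sign (MvPolynomial.eval (fun i => x i) (P j)) =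
        SignType.sign (MvPolynomial.eval (fun i => y i) (P j))) → x ∈ A → y ∈ A

theorem SemiAlg.meas {n D : ℕ} {A : Set (EuclideanSpace ℝ (Fin n))} (h : SemiAlg n D A) :
    MeasurableSet A := by
  obtain ⟨N, P, -, hA⟩ := h
  have hc : ∀ j, Continuous fun x : EuclideanSpace ℝ (Fin n) =>
      MvPolynomial.eval (fun i => x i) (P j) := fun j =>
    (MvPolynomial.continuous_eval (P j)).comp (continuous_pi fun i => by fun_prop)
  have hone : ∀ (j : Fin N) (σ : SignType), MeasurableSet {x : EuclideanSpace ℝ (Fin n) |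
      SignType.sign (MvPolynomial.eval (fun i => x i) (P j)) = σ} := by
    intro j σ
    match σ with
    | SignType.zero =>
      have h5 : {x : EuclideanSpace ℝ (Fin n) |
          SignType.sign (MvPolynomial.eval (fun i => x i) (P j)) = SignType.zero} =
          {x | MvPolynomial.eval (fun i => x i) (P j) = 0} := by
        ext x; exact sign_eq_zero_iff
      rw [h5]
      exact measurableSet_eq_fun (hc j).measurable measurable_const
    | SignType.pos =>
      have h5 : {x : EuclideanSpace ℝ (Fin n) |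
          SignType.sign (MvPolynomial.eval (fun i => x i) (P j)) = SignType.pos} =
          {x | 0 < MvPolynomial.eval (fun i => x i) (P j)} := by
        ext x; exact sign_eq_one_iff
      rw [h5]
      exact measurableSet_lt measurable_const (hc j).measurable
    | SignType.neg =>
      have h5 : {x : EuclideanSpace ℝ (Fin n) |
          SignType.sign (MvPolynomial.eval (fun i => x i) (P j)) = SignType.neg} =
          {x | MvPolynomial.eval (fun i => x i) (P j) < 0} := by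
        ext x; exact sign_eq_neg_one_iff
      rw [h5]
      exact measurableSet_lt (hc j).measurable measurable_const
  set Φ : EuclideanSpace ℝ (Fin n) → (Fin N → SignType) :=
    fun x j => SignType.sign (MvPolynomial.eval (fun i => x i) (P j)) with hΦ
  have h1 : A = ⋃ σ ∈ Φ '' A, ⋂ j, {x : EuclideanSpace ℝ (Fin n) |
      SignType.sign (MvPolynomial.eval (fun i => x i) (P j)) = σ j} := by
    ext x
    simp only [mem_iUnion, mem_iInter, mem_ofPred_eq]
    constructor
    · exact fun hx => ⟨Φ x, ⟨x, hx, rfl⟩, fun j => rfl⟩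
    · rintro ⟨σ, ⟨y, hy, hyσ⟩, hx⟩
      refine hA y x (fun j => ?_) hy
      rw [hx j, ← hyσ]
  rw [h1]
  exact (Set.toFinite _).measurableSet_biUnion fun σ _ =>
    MeasurableSet.iInter fun j => hone j (σ j)

/-- different signs -/
theorem sign_ne {a b : ℝ} (h : SignType.sign a ≠ SignType.sign b) :
    ((0 < a ∧ b ≤ 0) ∨ (0 < b ∧ a ≤ 0)) ∨ ((0 < -a ∧ -b ≤ 0) ∨ (0 < -b ∧ -a ≤ 0)) := by
  rcases lt_trichotomy a 0 with ha | ha | ha <;> rcases lt_trichotomy b 0 with hb | hb | hb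
  · exact absurd (by rw [sign_neg ha, sign_neg hb]) h
  · right; left; constructor <;> linarith
  · left; right; constructor <;> linarith
  · right; right; constructor <;> linarith
  · exact absurd (by rw [ha, hb]) h
  · left; right; constructor <;> linarith
  · left; left; constructor <;> linarith
  · left; left; constructor <;> linarith
  · exact absurd (by rw [sign_pos ha, sign_pos hb]) h

theorem nbhd_sa (n : ℕ) (hn : 1 ≤ n) : ∃ C : ℝ≥0, ∀ (D : ℕ) (A : Set (EuclideanSpace ℝ (Fin n))),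
    SemiAlg n D A → ∀ h : ℝ, 0 < h → h ≤ 1 → D * h ≤ 2 →
    volume {x : EuclideanSpace ℝ (Fin n) | ∃ y ∈ A, (∀ i, |y i| ≤ 1) ∧ ‖x - y‖ ≤ h} ≤
      C * (volume (A ∩ {x | ∀ i, |x i| ≤ 2}) + ENNReal.ofReal (D * h)) := by
  classical
  obtain ⟨n, rfl⟩ : ∃ d, n = d + 1 := ⟨n - 1, by omega⟩
  obtain ⟨C₁, h1⟩ := grid n
  obtain ⟨C₂, h2⟩ := nbhd (n + 1)
  refine ⟨C₂ * (1 + 2 * C₁ * 3 ^ n), fun D A hA h hh hh1 hDh => ?_⟩
  have hAm := hA.meas
  obtain ⟨N, P, hP, hAs⟩ := hA
  set m : ℕ := ⌈2 / h⌉₊ with hm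
  have hm1 : 2 / h ≤ m := Nat.le_ceil _
  have h2h : 2 ≤ 2 / h := by rw [le_div_iff₀ hh]; linarith
  have hm2 : (m : ℝ) ≤ 3 / h := by
    have h3 := (Nat.ceil_lt_add_one (by positivity : 0 ≤ 2 / h)).le
    have h4 : 1 ≤ 1 / h := by rw [le_div_iff₀ hh]; linarith
    have h5 : 3 / h = 2 / h + 1 / h := by ring
    rw [h5]
    linarith
  have hm0 : 1 ≤ m := by
    have : (1 : ℝ) ≤ m := by linarith
    exact_mod_cast this
  have hDm : D ≤ m := by
    have h3 : (D : ℝ) ≤ 2 / h := by rw [le_div_iff₀ hh]; exact hDh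
    exact_mod_cast h3.trans hm1
  have hdeg : ∀ j, (P j).totalDegree ≤ m := fun j =>
    ((Finset.single_le_sum (f := fun j => (P j).totalDegree) (fun _ _ => Nat.zero_le _)
      (Finset.mem_univ j)).trans hP).trans hDm
  have key := h2 A hAm h hh hh1 m (2 * C₁ * D * m ^ n) hm1 ?_
  · refine key.trans ?_
    rw [ENNReal.coe_mul, mul_assoc (C₂ : ℝ≥0∞)]
    refine mul_le_mul' le_rfl ?_
    have h3 : ((2 * C₁ * D * m ^ n : ℕ) : ℝ≥0∞) * ENNReal.ofReal (h ^ (n + 1)) ≤
        ((2 * C₁ * 3 ^ n : ℝ≥0) : ℝ≥0∞) * ENNReal.ofReal (D * h) := by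
      have e1 : ((2 * C₁ * D * m ^ n : ℕ) : ℝ≥0∞) = ENNReal.ofReal (2 * C₁ * D * (m : ℝ) ^ n) := by
        rw [← ENNReal.ofReal_natCast]
        push_cast
        rfl
      have e2 : ((2 * C₁ * 3 ^ n : ℝ≥0) : ℝ≥0∞) = ENNReal.ofReal (2 * C₁ * 3 ^ n) := by
        rw [← ENNReal.ofReal_coe_nnreal]
        push_cast
        rfl
      rw [e1, e2, ← ENNReal.ofReal_mul (by positivity), ← ENNReal.ofReal_mul (by positivity)]
      refine ENNReal.ofReal_le_ofReal ?_
      have h4 : (m : ℝ) ^ n * h ^ n ≤ 3 ^ n := by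
        rw [← mul_pow]
        refine pow_le_pow_left₀ (by positivity) ?_ n
        rw [le_div_iff₀ hh] at hm2
        exact hm2
      calc 2 * (C₁ : ℝ) * D * (m : ℝ) ^ n * h ^ (n + 1)
          = 2 * C₁ * D * h * ((m : ℝ) ^ n * h ^ n) := by ring
        _ ≤ 2 * C₁ * D * h * 3 ^ n := by gcongr
        _ = _ := by ring
    calc volume (A ∩ {x | ∀ i, |x i| ≤ 2}) +
          ((2 * C₁ * D * m ^ n : ℕ) : ℝ≥0∞) * ENNReal.ofReal (h ^ (n + 1))
        ≤ volume (A ∩ {x | ∀ i, |x i| ≤ 2}) +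
          ((2 * C₁ * 3 ^ n : ℝ≥0) : ℝ≥0∞) * ENNReal.ofReal (D * h) := by gcongr
      _ ≤ ((1 + 2 * C₁ * 3 ^ n : ℝ≥0) : ℝ≥0∞) * volume (A ∩ {x | ∀ i, |x i| ≤ 2}) +
          ((1 + 2 * C₁ * 3 ^ n : ℝ≥0) : ℝ≥0∞) * ENNReal.ofReal (D * h) := by
          refine add_le_add ?_ ?_
          · rw [ENNReal.coe_add, ENNReal.coe_one, add_mul, one_mul]
            exact le_add_right le_rfl
          · refine mul_le_mul' ?_ le_rfl
            rw [ENNReal.coe_add]
            exact le_add_left le_rfl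
      _ = _ := by rw [mul_add]
  · intro s hs
    -- the mixed boxes of the polynomials
    let sp : Fin N → Finset (Fin (n + 1) → ℤ) := fun j => s.filter fun k =>
      (∃ x ∈ box h k, 0 < MvPolynomial.eval x (P j)) ∧ ∃ x ∈ box h k, MvPolynomial.eval x (P j) ≤ 0
    let sn : Fin N → Finset (Fin (n + 1) → ℤ) := fun j => s.filter fun k =>
      (∃ x ∈ box h k, 0 < MvPolynomial.eval x (-P j)) ∧
        ∃ x ∈ box h k, MvPolynomial.eval x (-P j) ≤ 0
    have hsub : s ⊆ Finset.univ.biUnion fun j => sp j ∪ sn j := by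
      intro k hk
      obtain ⟨-, ⟨x, hxA, hx⟩, y, hyA, hy⟩ := hs k hk
      have h3 : ∃ j, SignType.sign (MvPolynomial.eval (fun i => x i) (P j)) ≠
          SignType.sign (MvPolynomial.eval (fun i => y i) (P j)) := by
        by_contra hcon
        push Not at hcon
        exact hyA (hAs x y hcon hxA)
      obtain ⟨j, hj⟩ := h3
      rw [Finset.mem_biUnion]
      refine ⟨j, Finset.mem_univ j, ?_⟩
      have hxb : (fun i => x i) ∈ box h k := hx
      have hyb : (fun i => y i) ∈ box h k := hy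
      rw [Finset.mem_union, Finset.mem_filter, Finset.mem_filter]
      rcases sign_ne hj with (⟨ha, hb⟩ | ⟨ha, hb⟩) | (⟨ha, hb⟩ | ⟨ha, hb⟩)
      · exact Or.inl ⟨hk, ⟨_, hxb, ha⟩, ⟨_, hyb, hb⟩⟩
      · exact Or.inl ⟨hk, ⟨_, hyb, ha⟩, ⟨_, hxb, hb⟩⟩
      · exact Or.inr ⟨hk, ⟨_, hxb, by rw [map_neg]; exact ha⟩, ⟨_, hyb, by rw [map_neg]; exact hb⟩⟩
      · exact Or.inr ⟨hk, ⟨_, hyb, by rw [map_neg]; exact ha⟩, ⟨_, hxb, by rw [map_neg]; exact hb⟩⟩
    have hsp : ∀ j, (sp j).card ≤ C₁ * (P j).totalDegree * m ^ n := fun j =>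
      h1 _ m hm0 (hdeg j) h hh (P j) le_rfl (sp j) fun k hk => by
        rw [Finset.mem_filter] at hk
        exact ⟨(hs k hk.1).1, hk.2⟩
    have hsn : ∀ j, (sn j).card ≤ C₁ * (P j).totalDegree * m ^ n := fun j =>
      h1 _ m hm0 (hdeg j) h hh (-P j) (by rw [MvPolynomial.totalDegree_neg]) (sn j) fun k hk => by
        rw [Finset.mem_filter] at hk
        exact ⟨(hs k hk.1).1, hk.2⟩
    calc s.card ≤ (Finset.univ.biUnion fun j => sp j ∪ sn j).card := Finset.card_le_card hsub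
      _ ≤ ∑ j, (sp j ∪ sn j).card := Finset.card_biUnion_le
      _ ≤ ∑ j, (2 * C₁ * m ^ n) * (P j).totalDegree := by
          refine Finset.sum_le_sum fun j _ => (Finset.card_union_le _ _).trans ?_
          calc (sp j).card + (sn j).card
              ≤ C₁ * (P j).totalDegree * m ^ n + C₁ * (P j).totalDegree * m ^ n :=
                add_le_add (hsp j) (hsn j)
            _ = _ := by ring
      _ = (2 * C₁ * m ^ n) * ∑ j, (P j).totalDegree := by rw [Finset.mul_sum]
      _ ≤ (2 * C₁ * m ^ n) * D := Nat.mul_le_mul_left _ hP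
      _ = _ := by ring

end Pool.Agent.H222.SK
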